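import Pool.Agent.H94.NT.CnrT
import Pool.Agent.H94.NC.MorC

/-!
# CnB : the corner `f(1) B g(1)` as a bimodule, left action through `f`, right action through `g`
-/

set_option autoImplicit false

open scoped TensorProduct

noncomputable section

namespace NC

variable {k : Type} [Field k] {A B : DGA k} (f g : DGA.NHom A B)

/-- the corner -/
def cnU : Submodule k B.V := subY f ⊓ subX g

theorem mem_cnU {x : B.V} : x ∈ cnU f g ↔ f.f 1 * x = x ∧ x * g.f 1 = x := Iff.rfl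

theorem cnU_D : ∀ x ∈ cnU f g, B.D x ∈ cnU f g :=
  fun x hx => ⟨subY_D f x hx.1, subX_D g x hx.2⟩

theorem cnU_P : ∀ x ∈ cnU f g, B.P x ∈ cnU f g :=
  fun x hx => ⟨subY_P f x hx.1, subX_P g x hx.2⟩

theorem cnU_l (a : A.V) {x : B.V} (hx : x ∈ cnU f g) : f.f a * x ∈ cnU f g := by
  obtain ⟨h1, h2⟩ := (mem_cnU f g).1 hx
  refine (mem_cnU f g).2 ⟨?_, ?_⟩
  · rw [← mul_assoc, ← f.mul, one_mul]
  · rw [mul_assoc, h2]

theorem cnU_r (a : A.V) {x : B.V} (hx : x ∈ cnU f g) : x * g.f a ∈ cnU f g := by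
  obtain ⟨h1, h2⟩ := (mem_cnU f g).1 hx
  refine (mem_cnU f g).2 ⟨?_, ?_⟩
  · rw [← mul_assoc, h1]
  · rw [mul_assoc, ← g.mul, mul_one]

/-- the bimodule structure of the corner -/
def cnBi : Bi A A (B.toSD.sub (cnU f g) (cnU_D f g) (cnU_P f g)) where
  l := (B.diag.l.res f).sub _ _ _ (fun a _ hv => cnU_l f g a hv)
  r := (B.diag.r.res g).sub _ _ _ (fun a _ hv => cnU_r f g a hv)
  lr := fun a x b => Subtype.ext (mul_assoc (f.f a) x.1 (g.f b))

/-- the corner `f(1) B g(1)` -/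
def cnB : BMod A A where
  N := B.toSD.sub (cnU f g) (cnU_D f g) (cnU_P f g)
  b := cnBi f g
  one_l := fun y => Subtype.ext ((mem_cnU f g).1 y.2).1
  r_one := fun y => Subtype.ext ((mem_cnU f g).1 y.2).2

/-- the inclusion -/
def cnIo : SD.Hom (cnB f g).N B.toSD where
  f := (cnU f g).subtype
  D := fun _ => rfl
  P := fun _ => rfl

theorem cnPr_mem (w : B.V) : f.f 1 * w * g.f 1 ∈ cnU f g := by
  refine (mem_cnU f g).2 ⟨?_, ?_⟩
  · rw [← mul_assoc, ← mul_assoc, i1_i1]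
  · rw [mul_assoc, i1_i1]

/-- the projection `w ↦ f(1) w g(1)` -/
def cnPr : SD.Hom B.toSD (cnB f g).N where
  f := (B.mul.flip (g.f 1) ∘ₗ B.mul (f.f 1)).codRestrict (cnU f g) (cnPr_mem f g)
  D := fun w => Subtype.ext (by
    change f.f 1 * B.D w * g.f 1 = B.D (f.f 1 * w * g.f 1)
    rw [B.D_mul', B.D_mul', i1_D, i1_D, zero_mul, zero_add, mul_zero, add_zero, i1_E])
  P := fun w => Subtype.ext (by
    have h1 : B.P (f.f 1 * w) = f.f 1 * B.P w := by
      have h := B.P_mul (f.f 1) w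
      rw [i1_P, sub_self, map_zero, LinearMap.zero_apply, add_zero] at h
      exact h
    have h2 : B.P (f.f 1 * w * g.f 1) = B.P (f.f 1 * w) * g.f 1 := by
      have h := B.P_mul (f.f 1 * w) (g.f 1)
      rw [i1_P, sub_self, map_zero, add_zero] at h
      exact h
    change f.f 1 * B.P w * g.f 1 = B.P (f.f 1 * w * g.f 1)
    rw [h2, h1])

/-- the corner is a corner -/
def cnC : Cnr f g (cnB f g).b where
  io := cnIo f g
  pr := cnPr f g
  pi := fun v => Subtype.ext (by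
    change f.f 1 * v.1 * g.f 1 = v.1
    rw [((mem_cnU f g).1 v.2).1, ((mem_cnU f g).1 v.2).2])
  il := fun _ _ => rfl
  ir := fun _ _ => rfl
  pl := fun a w => Subtype.ext (by
    change f.f 1 * (f.f a * w) * g.f 1 = f.f a * (f.f 1 * w * g.f 1)
    rw [← mul_assoc (f.f 1), ← f.mul, one_mul, mul_assoc (f.f a), ← mul_assoc (f.f a) (f.f 1 * w),
      ← mul_assoc (f.f a) (f.f 1), ← f.mul, mul_one, ← mul_assoc])
  pR := fun w a => Subtype.ext (by
    change f.f 1 * (w * g.f a) * g.f 1 = f.f 1 * w * g.f 1 * g.f a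
    rw [mul_assoc, mul_assoc w, ← g.mul, mul_one, mul_assoc, mul_assoc, ← g.mul, one_mul])
  c := fun a w a' => by
    change f.f a * (f.f 1 * w * g.f 1) * g.f a' = f.f a * w * g.f a'
    rw [← mul_assoc, ← mul_assoc, ← f.mul, mul_one, mul_assoc, mul_assoc, ← g.mul, one_mul,
      mul_assoc]

/-- the homology of the corner is finite dimensional -/
theorem cnB_finH (hB : B.toSD.FinH) : (cnB f g).N.FinH := by
  obtain ⟨s, hs⟩ := hB
  classical
  refine ⟨s.image (cnPr f g).f, fun x hx => ?_⟩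
  obtain ⟨y, hy, z, hz⟩ := hs ((cnIo f g).f x) (by rw [← (cnIo f g).D, hx, map_zero])
  refine ⟨(cnPr f g).f y, ?_, (cnPr f g).f z, ?_⟩
  · have h1 := Submodule.mem_map_of_mem (f := (cnPr f g).f) hy
    rw [Submodule.map_span] at h1
    rwa [Finset.coe_image]
  · rw [← (cnPr f g).D, hz, map_sub]
    have h2 : (cnPr f g).f ((cnIo f g).f x) = x := (cnC f g).pi x
    rw [h2]

/-- the homomorphism from the diagonal to `g(1) B g(1)` -/
def cnQ : BMod.Hom (BMod.diag A) (cnB g g) where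
  f := g.f.codRestrict (cnU g g) (fun a => (mem_cnU g g).2
    ⟨by rw [← g.mul, one_mul], by rw [← g.mul, mul_one]⟩)
  D := fun a => Subtype.ext (g.D a)
  P := fun a => Subtype.ext (g.P a)
  isHom := ⟨fun a b => Subtype.ext (g.mul a b), fun a b => Subtype.ext (g.mul a b)⟩

theorem cnQ_val (a : A.V) : (cnIo g g).f ((cnQ g).f a) = g.f a := rfl

end NC
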