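import Pool.Agent.H36.NX.Coker
import Pool.Agent.H9.NC.Lin
import Pool.Agent.H15.NC.Cone
import Pool.Agent.H94.NC.MCtx

/-!
# Retr : an injective quasi-isomorphism of dg algebras gives a quasi-isomorphism of Hochschild
complexes (retraction data, the homotopy on words)
-/

set_option autoImplicit false

open scoped TensorProduct

noncomputable section

namespace NC

variable {k : Type} [Field k]

/-- retraction data for an injective quasi-isomorphism -/
theorem SD.Hom.QI.exists_retr {M N : SD k} {g : SD.Hom M N} (hg : g.QI)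
    (hi : Function.Injective g.f) :
    ∃ (p : N.V →ₗ[k] M.V) (t : N.V →ₗ[k] N.V), (∀ x, p (g.f x) = x) ∧ (∀ x, t (g.f x) = 0) ∧
      (∀ v, N.P (t v) = t v - t (N.P v)) ∧ (∀ v, p (N.P v) = M.P (p v)) ∧
      (∀ v, N.D (t v) + t (N.D v) = v - g.f (p v)) := by
  have hD : ∀ x ∈ LinearMap.range g.f, N.D x ∈ LinearMap.range g.f := by
    rintro _ ⟨x, rfl⟩
    exact ⟨M.D x, g.D x⟩
  have hP : ∀ x ∈ LinearMap.range g.f, N.P x ∈ LinearMap.range g.f := by
    rintro _ ⟨x, rfl⟩
    exact ⟨M.P x, g.P x⟩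
  obtain ⟨Q, q, hS⟩ : ∃ (Q : SD k) (q : SD.Hom N Q), SD.SES g q := by
    refine ⟨N.quot (LinearMap.range g.f) hD hP, N.mkq (LinearMap.range g.f) hD hP, ?_, ?_, ?_, ?_⟩
    · intro x hx
      exact hi (by rw [hx, map_zero])
    · exact (LinearMap.range g.f).mkQ_surjective
    · intro x
      change (LinearMap.range g.f).mkQ (g.f x) = 0
      rw [Submodule.mkQ_apply, Submodule.Quotient.mk_eq_zero]
      exact ⟨x, rfl⟩
    · intro y hy
      change (LinearMap.range g.f).mkQ y = 0 at hy
      rw [Submodule.mkQ_apply, Submodule.Quotient.mk_eq_zero] at hy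
      exact hy
  obtain ⟨h, hhP, hhD⟩ := (hS.acyclic_of_qi_left hg).exists_contraction
  obtain ⟨s₀, hs₀⟩ := q.f.exists_rightInverse_of_surjective
    (LinearMap.range_eq_top.2 hS.surj)
  have hs₀' : ∀ v, q.f (s₀ v) = v := fun v => LinearMap.congr_fun hs₀ v
  obtain ⟨r, hr⟩ := g.f.exists_leftInverse_of_injective (LinearMap.ker_eq_bot.2 hi)
  have hr' : ∀ v, r (g.f v) = v := fun v => LinearMap.congr_fun hr v
  -- the parity compatible section
  obtain ⟨s, hs⟩ : ∃ s : Q.V →ₗ[k] N.V, ∀ v, s v = N.P (s₀ (Q.P v)) +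
      (s₀ (v - Q.P v) - N.P (s₀ (v - Q.P v))) :=
    ⟨N.P ∘ₗ s₀ ∘ₗ Q.P + (LinearMap.id - N.P) ∘ₗ s₀ ∘ₗ (LinearMap.id - Q.P), fun v => rfl⟩
  have hsq : ∀ v, q.f (s v) = v := by
    intro v
    rw [hs, map_add, map_sub, q.P, q.P, hs₀', hs₀', map_sub, Q.PP]
    abel
  have hsP : ∀ v, s (Q.P v) = N.P (s v) := by
    intro v
    rw [hs, hs]
    simp only [map_add, map_sub, Q.PP, N.PP, sub_self, map_zero, add_zero]
  -- the section which is a chain map
  obtain ⟨s', hs'⟩ : ∃ s' : Q.V →ₗ[k] N.V, ∀ v, s' v = N.D (s (h v)) + s (h (Q.D v)) :=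
    ⟨N.D ∘ₗ s ∘ₗ h + s ∘ₗ h ∘ₗ Q.D, fun v => rfl⟩
  have hs'q : ∀ v, q.f (s' v) = v := by
    intro v
    rw [hs', map_add, q.D, hsq, hsq, hhD]
  have hs'D : ∀ v, s' (Q.D v) = N.D (s' v) := by
    intro v
    rw [hs', hs', map_add, N.DD, Q.DD, map_zero, map_zero, add_zero, zero_add]
  have hs'P : ∀ v, s' (Q.P v) = N.P (s' v) := by
    intro v
    have e1 : h (Q.P v) = h v - Q.P (h v) := by rw [hhP]; abel
    have e2 : Q.D (Q.P v) = Q.D v - Q.P (Q.D v) := Q.DP v
    have e3 : h (Q.P (Q.D v)) = h (Q.D v) - Q.P (h (Q.D v)) := by rw [hhP]; abel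
    rw [hs', hs', e1, e2]
    simp only [map_add, map_sub, e3, hsP, N.DP]
    abel
  obtain ⟨p, hp⟩ : ∃ p : N.V →ₗ[k] M.V, ∀ v, p v = r (v - s' (q.f v)) :=
    ⟨r ∘ₗ (LinearMap.id - s' ∘ₗ q.f), fun v => rfl⟩
  have hgp : ∀ v, g.f (p v) = v - s' (q.f v) := by
    intro v
    obtain ⟨x, hx⟩ := hS.exact (v - s' (q.f v)) (by rw [map_sub, hs'q, sub_self])
    rw [hp, ← hx, hr']
  refine ⟨p, s' ∘ₗ h ∘ₗ q.f, fun x => ?_, fun x => ?_, fun v => ?_, fun v => ?_, fun v => ?_⟩
  · rw [hp, hS.zero, map_zero, sub_zero, hr']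
  · rw [LinearMap.comp_apply, LinearMap.comp_apply, hS.zero, map_zero, map_zero]
  · simp only [LinearMap.comp_apply, q.P]
    have e1 : h (Q.P (q.f v)) = h (q.f v) - Q.P (h (q.f v)) := by rw [hhP]; abel
    rw [e1, map_sub, hs'P]
    abel
  · apply hi
    rw [hgp, g.P, hgp, q.P, hs'P, map_sub]
  · simp only [LinearMap.comp_apply, q.D]
    rw [hgp, ← hs'D, ← map_add, hhD]
    abel

/-! ### the homotopy on words -/

section homotopy

variable {N : SD k} {R : DGA k} (p t : R.V →ₗ[k] R.V)

/-- `snoc w r ↦ snoc (S w) r - snoc (E (p w)) (t r)` -/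
def trS (N : SD k) (R : DGA k) (p t : R.V →ₗ[k] R.V) : Wd k N.V R.V →ₗ[k] Wd k N.V R.V :=
  Wd.recW 0 (-((Wd.snoc.compl₂ t) ∘ₗ EW N R.toSD ∘ₗ Wd.map LinearMap.id p)) Wd.snoc

@[simp] theorem trS_nil (n : N.V) : trS N R p t (Wd.nil n) = 0 := by simp [trS]

@[simp] theorem trS_snoc (w : Wd k N.V R.V) (r : R.V) :
    trS N R p t (Wd.snoc w r) = Wd.snoc (trS N R p t w) r -
      Wd.snoc (EW N R.toSD (Wd.map LinearMap.id p w)) (t r) := by
  simp only [trS, Wd.recW_snoc, LinearMap.neg_apply, LinearMap.comp_apply,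
    LinearMap.compl₂_apply]
  abel

variable (hpP : ∀ v, p (R.P v) = R.P (p v)) (htP : ∀ v, R.P (t v) = t v - t (R.P v))

include hpP in
theorem PW_mapid (w : Wd k N.V R.V) :
    PW N R.toSD (Wd.map LinearMap.id p w) = Wd.map LinearMap.id p (PW N R.toSD w) := by
  have hpE : ∀ v, R.E (p v) = p (R.E v) := fun v => by
    simp only [SD.E_apply, map_add, map_sub, hpP]
  induction w using Wd.induction with
  | hadd a b ha hb => simp only [map_add, ha, hb]
  | hnil n => simp
  | hsnoc w hw r => simp only [Wd.map_snoc, PW_snoc, map_sub, hw, hpP, hpE]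

include hpP in
theorem EW_mapid (w : Wd k N.V R.V) :
    EW N R.toSD (Wd.map LinearMap.id p w) = Wd.map LinearMap.id p (EW N R.toSD w) := by
  simp only [EW_apply, PW_mapid p hpP, map_add, map_sub]

include hpP htP in
theorem EW_trS (w : Wd k N.V R.V) :
    EW N R.toSD (trS N R p t w) = - trS N R p t (EW N R.toSD w) := by
  have htE : ∀ v, R.E (t v) = - t (R.E v) := fun v => by
    simp only [SD.E_apply, map_add, map_sub, htP]
    abel
  induction w using Wd.induction with
  | hadd a b ha hb => simp only [map_add, ha, hb, neg_add]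
  | hnil n => simp
  | hsnoc w hw r =>
    simp only [trS_snoc, map_sub, EW_snoc, map_neg, hw, htE, EW_mapid p hpP, EW_EW,
      LinearMap.neg_apply]
    abel

theorem mapid_mem_len (n : ℕ) {w : Wd k N.V R.V} (h : w ∈ Wd.len k N.V R.V n) :
    Wd.map LinearMap.id p w ∈ Wd.len k N.V R.V n := by
  induction n generalizing w with
  | zero =>
    refine Wd.len_zero_le (p := (Wd.len k N.V R.V 0).comap (Wd.map LinearMap.id p))
      (fun a => ?_) h
    rw [Submodule.mem_comap, Wd.map_nil]
    exact Wd.nil_mem_len 0 _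
  | succ n ih =>
    refine Wd.len_succ_le (p := (Wd.len k N.V R.V (n + 1)).comap (Wd.map LinearMap.id p))
      (fun a => ?_) (fun v hv r => ?_) h
    · rw [Submodule.mem_comap, Wd.map_nil]
      exact Wd.nil_mem_len _ _
    · rw [Submodule.mem_comap, Wd.map_snoc]
      exact Wd.snoc_mem_len (ih hv) _

theorem trS_mem_len (n : ℕ) {w : Wd k N.V R.V} (h : w ∈ Wd.len k N.V R.V n) :
    trS N R p t w ∈ Wd.len k N.V R.V n := by
  induction n generalizing w with
  | zero =>
    refine Wd.len_zero_le (p := (Wd.len k N.V R.V 0).comap (trS N R p t)) (fun a => ?_) h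
    rw [Submodule.mem_comap, trS_nil]
    exact Submodule.zero_mem _
  | succ n ih =>
    refine Wd.len_succ_le (p := (Wd.len k N.V R.V (n + 1)).comap (trS N R p t)) (fun a => ?_)
      (fun v hv r => ?_) h
    · rw [Submodule.mem_comap, trS_nil]
      exact Submodule.zero_mem _
    · rw [Submodule.mem_comap, trS_snoc]
      exact Submodule.sub_mem _ (Wd.snoc_mem_len (ih hv) _)
        (Wd.snoc_mem_len (EW_mem_lenH _ _ n (mapid_mem_len p n hv)) _)

theorem trS_mem_fl (n : ℕ) {w : Wd k N.V R.V} (h : w ∈ Wd.fl k N.V R.V n) :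
    trS N R p t w ∈ Wd.fl k N.V R.V n := by
  cases n with
  | zero =>
    have h2 : w = 0 := h
    rw [h2, map_zero]
    exact Submodule.zero_mem _
  | succ n => exact trS_mem_len p t n h

variable (hpD : ∀ v, p (R.D v) = R.D (p v)) (ht : ∀ v, R.D (t v) + t (R.D v) = v - p v)

theorem tl_mapid_mem_len {N : Type} [AddCommGroup N] [Module k N] (ρ : N →ₗ[k] R.V →ₗ[k] N)
    (n : ℕ) {w : Wd k N R.V} (h : w ∈ Wd.len k N R.V n) (r : R.V) :
    tl R ρ w r ∈ Wd.len k N R.V n := tl_mem_len R ρ n h r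

include hpP htP hpD ht in
/-- the homotopy for the bar differential, up to words of smaller length -/
theorem Db_trS (ρ : RA R N) (n : ℕ) {w : Wd k N.V R.V} (hw : w ∈ Wd.len k N.V R.V n) :
    (Db ρ (trS N R p t w) + trS N R p t (Db ρ w) - (w - Wd.map LinearMap.id p w)
      ∈ Wd.fl k N.V R.V n) ∧
    (Db ρ (Wd.map LinearMap.id p w) - Wd.map LinearMap.id p (Db ρ w) ∈ Wd.fl k N.V R.V n) := by
  have h0 : ∀ a : N.V, Db ρ (trS N R p t (Wd.nil a)) + trS N R p t (Db ρ (Wd.nil a))
      - (Wd.nil a - Wd.map LinearMap.id p (Wd.nil a)) = 0 := by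
    intro a
    rw [trS_nil, Db_nil, trS_nil, Wd.map_nil, map_zero, LinearMap.id_apply]
    abel
  have h0' : ∀ a : N.V, Db ρ (Wd.map LinearMap.id p (Wd.nil a))
      - Wd.map LinearMap.id p (Db ρ (Wd.nil a)) = 0 := by
    intro a
    rw [Wd.map_nil, Db_nil, Db_nil, Wd.map_nil, LinearMap.id_apply, LinearMap.id_apply, sub_self]
  let T : Wd k N.V R.V →ₗ[k] Wd k N.V R.V :=
    Db ρ ∘ₗ trS N R p t + trS N R p t ∘ₗ Db ρ - (LinearMap.id - Wd.map LinearMap.id p)
  let T' : Wd k N.V R.V →ₗ[k] Wd k N.V R.V :=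
    Db ρ ∘ₗ Wd.map LinearMap.id p - Wd.map LinearMap.id p ∘ₗ Db ρ
  have hT : ∀ w, T w = Db ρ (trS N R p t w) + trS N R p t (Db ρ w)
      - (w - Wd.map LinearMap.id p w) := fun _ => rfl
  have hT' : ∀ w, T' w = Db ρ (Wd.map LinearMap.id p w)
      - Wd.map LinearMap.id p (Db ρ w) := fun _ => rfl
  induction n generalizing w with
  | zero =>
    constructor
    · refine Wd.len_zero_le (p := (Wd.fl k N.V R.V 0).comap T) (fun a => ?_) hw
      rw [Submodule.mem_comap, hT, h0]
      exact Submodule.zero_mem _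
    · refine Wd.len_zero_le (p := (Wd.fl k N.V R.V 0).comap T') (fun a => ?_) hw
      rw [Submodule.mem_comap, hT', h0']
      exact Submodule.zero_mem _
  | succ n ih =>
    constructor
    · refine Wd.len_succ_le (p := (Wd.fl k N.V R.V (n + 1)).comap T) (fun a => ?_)
        (fun v hv r => ?_) hw
      · rw [Submodule.mem_comap, hT, h0]
        exact Submodule.zero_mem _
      · rw [Submodule.mem_comap, hT]
        have e : Db ρ (trS N R p t (Wd.snoc v r)) + trS N R p t (Db ρ (Wd.snoc v r))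
            - (Wd.snoc v r - Wd.map LinearMap.id p (Wd.snoc v r))
            = Wd.snoc (Db ρ (trS N R p t v) + trS N R p t (Db ρ v)
                - (v - Wd.map LinearMap.id p v)) r
              + Wd.snoc (EW N R.toSD (Db ρ (Wd.map LinearMap.id p v)
                - Wd.map LinearMap.id p (Db ρ v))) (t r)
              + (tl R ρ.act (EW N R.toSD (trS N R p t v)) r
                - tl R ρ.act (Wd.map LinearMap.id p v) (t r)
                + trS N R p t (tl R ρ.act (EW N R.toSD v) r)) := by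
          have h1 : t (R.D r) = r - p r - R.D (t r) := by rw [← ht]; abel
          simp only [trS_snoc, Wd.map_snoc, Db_snoc, map_add, map_sub, LinearMap.add_apply,
            LinearMap.sub_apply, EW_trS p t hpP htP, EW_mapid p hpP, EW_EW, map_neg,
            LinearMap.neg_apply, h1]
          have h2 : Db ρ (Wd.map LinearMap.id p (EW N R.toSD v))
              = - EW N R.toSD (Db ρ (Wd.map LinearMap.id p v)) := by
            rw [← EW_mapid p hpP, Db_EW]
          simp only [h2, map_neg, LinearMap.neg_apply]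
          abel
        rw [e]
        refine Submodule.add_mem _ (Submodule.add_mem _ (Wd.snoc_mem_fl (ih hv).1 r)
          (Wd.snoc_mem_fl ?_ _)) ?_
        · have h2 := (ih hv).2
          cases n with
          | zero =>
            have h3 : Db ρ (Wd.map LinearMap.id p v) - Wd.map LinearMap.id p (Db ρ v) = 0 := h2
            rw [h3, map_zero]
            exact Submodule.zero_mem _
          | succ n => exact EW_mem_lenH _ _ n h2
        · refine Submodule.add_mem _ (Submodule.sub_mem _ ?_ ?_) ?_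
          · exact tl_mem_len R ρ.act n (EW_mem_lenH _ _ n (trS_mem_len p t n hv)) r
          · exact tl_mem_len R ρ.act n (mapid_mem_len p n hv) _
          · exact trS_mem_len p t n (tl_mem_len R ρ.act n (EW_mem_lenH _ _ n hv) r)
    · refine Wd.len_succ_le (p := (Wd.fl k N.V R.V (n + 1)).comap T') (fun a => ?_)
        (fun v hv r => ?_) hw
      · rw [Submodule.mem_comap, hT', h0']
        exact Submodule.zero_mem _
      · rw [Submodule.mem_comap, hT']
        have e : Db ρ (Wd.map LinearMap.id p (Wd.snoc v r))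
            - Wd.map LinearMap.id p (Db ρ (Wd.snoc v r))
            = Wd.snoc (Db ρ (Wd.map LinearMap.id p v) - Wd.map LinearMap.id p (Db ρ v)) (p r)
              + (tl R ρ.act (EW N R.toSD (Wd.map LinearMap.id p v)) (p r)
                - Wd.map LinearMap.id p (tl R ρ.act (EW N R.toSD v) r)) := by
          simp only [Wd.map_snoc, Db_snoc, map_add, map_sub, LinearMap.sub_apply,
            EW_mapid p hpP, hpD]
          abel
        rw [e]
        refine Submodule.add_mem _ (Wd.snoc_mem_fl (ih hv).2 _) (Submodule.sub_mem _ ?_ ?_)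
        · exact tl_mem_len R ρ.act n (EW_mem_lenH _ _ n (mapid_mem_len p n hv)) _
        · exact mapid_mem_len p n (tl_mem_len R ρ.act n (EW_mem_lenH _ _ n hv) r)

include hpP htP hpD ht in
theorem hcD_trS (b : Bi R R N) (n : ℕ) {w : Wd k N.V R.V} (hw : w ∈ Wd.len k N.V R.V n) :
    hcD b (trS N R p t w) + trS N R p t (hcD b w) - (w - Wd.map LinearMap.id p w)
      ∈ Wd.fl k N.V R.V n := by
  have e : hcD b (trS N R p t w) + trS N R p t (hcD b w) - (w - Wd.map LinearMap.id p w)
      = (Db b.r (trS N R p t w) + trS N R p t (Db b.r w) - (w - Wd.map LinearMap.id p w))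
        - (om b.l (trS N R p t w) + trS N R p t (om b.l w)) := by
    simp only [hcD_apply, map_sub]
    abel
  rw [e]
  refine Submodule.sub_mem _ (Db_trS p t hpP htP hpD ht b.r n hw).1 (Submodule.add_mem _ ?_ ?_)
  · exact om_mem_fl b.l n (trS_mem_len p t n hw)
  · exact trS_mem_fl p t n (om_mem_fl b.l n hw)

end homotopy

/-! ### the theorem -/

section

variable {R S : DGA k} (g : DGA.NHom R S) {N : SD k} (b : Bi S S N)

theorem hcRes_QI (hg : g.toHom.QI) (hi : Function.Injective g.f) : (hcRes g b).QI := by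
  obtain ⟨p, t, hp, ht0, htP, hpP, htD⟩ := hg.exists_retr hi
  obtain ⟨P, hP⟩ : ∃ P : S.V →ₗ[k] S.V, ∀ v, P v = g.f (p v) := ⟨g.f ∘ₗ p, fun _ => rfl⟩
  have hPP : ∀ v, P (S.P v) = S.P (P v) := by
    intro v
    rw [hP, hP, hpP, g.P]
  have htD' : ∀ v, S.D (t v) + t (S.D v) = v - P v := by
    intro v
    rw [htD, hP]
  have hPD : ∀ v, P (S.D v) = S.D (P v) := by
    intro v
    have e1 := htD' v
    have e2 := htD' (S.D v)
    have e3 := congrArg S.D e1
    rw [S.DD, map_zero, add_zero] at e2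
    rw [map_add, S.DD, zero_add, map_sub] at e3
    rw [e2] at e3
    have e4 := sub_right_inj.1 e3
    exact e4
  -- words with letters in the image
  have hmap : ∀ w : Wd k N.V S.V, Wd.map LinearMap.id P w
      = (hcRes g b).f (Wd.map LinearMap.id p w) := by
    intro w
    induction w using Wd.induction with
    | hadd a b ha hb => rw [map_add, map_add, map_add, ha, hb]
    | hnil n => rw [Wd.map_nil, Wd.map_nil, hcRes_nil]
    | hsnoc w hw r => rw [Wd.map_snoc, Wd.map_snoc, hcRes_snoc, hw, hP]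
  have hret : ∀ w : Wd k N.V R.V, Wd.map LinearMap.id p ((hcRes g b).f w) = w := by
    intro w
    induction w using Wd.induction with
    | hadd a b ha hb => rw [map_add, map_add, ha, hb]
    | hnil n => rw [hcRes_nil, Wd.map_nil, LinearMap.id_apply]
    | hsnoc w hw r => rw [hcRes_snoc, Wd.map_snoc, hw, hp]
  have hS0 : ∀ w : Wd k N.V R.V, trS N S P t ((hcRes g b).f w) = 0 := by
    intro w
    induction w using Wd.induction with
    | hadd a b ha hb => rw [map_add, map_add, ha, hb, add_zero]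
    | hnil n => rw [hcRes_nil, trS_nil]
    | hsnoc w hw r =>
      rw [hcRes_snoc, trS_snoc, hw, ht0, map_zero, map_zero, LinearMap.zero_apply, sub_zero]
  have hinj : ∀ w, (hcRes g b).f w = 0 → w = 0 := by
    intro w hw
    rw [← hret w, hw, map_zero]
  have key : ∀ n : ℕ, ∀ w : Wd k N.V S.V, w ∈ Wd.len k N.V S.V n →
      (∃ u, (HC b).D w = (hcRes g b).f u) → ∃ y v, w = (hcRes g b).f v + (HC b).D y := by
    intro n
    induction n with
    | zero =>
      rintro w hw ⟨u, hu⟩
      have h1 := hcD_trS P t hPP htP hPD htD' b 0 hw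
      have h2 : hcD b (trS N S P t w) + trS N S P t (hcD b w) - (w - Wd.map LinearMap.id P w)
          = 0 := h1
      have hu' : hcD b w = (hcRes g b).f u := hu
      rw [hu', hS0, add_zero, hmap] at h2
      refine ⟨trS N S P t w, Wd.map LinearMap.id p w, ?_⟩
      change w = (hcRes g b).f (Wd.map LinearMap.id p w) + hcD b (trS N S P t w)
      rw [sub_eq_zero.1 h2]
      abel
    | succ n ih =>
      rintro w hw ⟨u, hu⟩
      have h1 := hcD_trS P t hPP htP hPD htD' b (n + 1) hw
      have hu' : hcD b w = (hcRes g b).f u := hu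
      rw [hu', hS0, add_zero, hmap] at h1
      obtain ⟨y, v, hyv⟩ := ih _ h1 (by
        refine ⟨(HC (b.res g g)).D (Wd.map LinearMap.id p w) - u, ?_⟩
        have h5 : (hcRes g b).f ((HC (b.res g g)).D (Wd.map LinearMap.id p w) - u)
            = hcD b ((hcRes g b).f (Wd.map LinearMap.id p w)) - hcD b w := by
          rw [map_sub, (hcRes g b).D, ← hu]
        rw [h5]
        change hcD b (hcD b (trS N S P t w) - (w - (hcRes g b).f (Wd.map LinearMap.id p w)))
          = hcD b ((hcRes g b).f (Wd.map LinearMap.id p w)) - hcD b w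
        rw [map_sub, map_sub]
        have h3 : hcD b (hcD b (trS N S P t w)) = 0 := (HC b).DD _
        rw [h3]
        abel)
      refine ⟨trS N S P t w - y, Wd.map LinearMap.id p w - v, ?_⟩
      change w = (hcRes g b).f (Wd.map LinearMap.id p w - v) + hcD b (trS N S P t w - y)
      change _ = (hcRes g b).f v + hcD b y at hyv
      rw [map_sub, map_sub]
      have h4 : hcD b (trS N S P t w) = (hcRes g b).f v + hcD b y
          + (w - (hcRes g b).f (Wd.map LinearMap.id p w)) := by
        rw [← hyv]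
        abel
      rw [h4]
      abel
  constructor
  · intro x y hx hxy
    obtain ⟨n, hn⟩ := Wd.exists_mem_len y
    obtain ⟨z, v, hz⟩ := key n y hn ⟨x, hxy.symm⟩
    refine ⟨v, ?_⟩
    have h1 : (hcRes g b).f ((HC (b.res g g)).D v - x) = 0 := by
      rw [map_sub, (hcRes g b).D, hxy, hz, map_add, (HC b).DD, add_zero, sub_self]
    exact sub_eq_zero.1 (hinj _ h1)
  · intro y hy
    obtain ⟨n, hn⟩ := Wd.exists_mem_len y
    obtain ⟨z, v, hz⟩ := key n y hn ⟨0, by rw [hy, map_zero]⟩
    refine ⟨v, z, ?_, hz⟩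
    apply hinj
    rw [(hcRes g b).D]
    have h1 := congrArg (HC b).D hz
    rw [map_add, (HC b).DD, add_zero, hy] at h1
    exact h1.symm

/-- the coefficients `R → S` and the letters -/
theorem hcMap_QI {M : SD k} {c : Bi R R M} (f : SD.Hom M N) (h : c.IsHom (b.res g g) f)
    (hf : f.QI) (hg : g.toHom.QI) (hi : Function.Injective g.f) : (hcMap g f h).QI := by
  refine ((hcRes_QI g b hg hi).comp (QI_hc c (b.res g g) f h hf)).congr (fun w => ?_)
  exact (Wd.map_eq f.f g w).symm

end

/-- an injective quasi-isomorphism of dg algebras gives a quasi-isomorphism of Hochschild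
complexes -/
theorem hcA_QI_of_inj {R S : DGA k} (g : DGA.NHom R S) (hg : g.toHom.QI)
    (hi : Function.Injective g.f) : (hcA g).QI := by
  have h : R.diag.IsHom (S.diag.res g g) g.toHom := ⟨fun a n => g.mul a n, fun n a => g.mul n a⟩
  refine (hcMap_QI g S.diag g.toHom h hg hg hi).congr (fun w => ?_)
  rfl

end NC
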