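import Pool.Agent.H36.QX.Emb
import Pool.Agent.H16.QE.Retr
import Pool.Agent.H94.NC.MorC

/-!
# EmbQI : the homomorphism of Čech algebras given by an extension of the ring and a new object

`PExt P P' φ` : the pieces of `S` extend those of `R` along an injective `φ`, with the same sections on the chart
`X` and the same cohomology.
-/

set_option autoImplicit false
set_option linter.unusedSectionVars false

open NC

noncomputable section

namespace H36.QX

open H36.NX

variable {k : Type} [Field k] {R S : Type} [CommRing R] [Algebra k R] [CommRing S] [Algebra k S]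
  {I I' : Type} [Fintype I] [DecidableEq I] [Fintype I'] [DecidableEq I']

/-- an extension of systems of pieces with the same cohomology -/
structure PExt (P : PSy k R) (P' : PSy k S) (φ : R →ₐ[k] S) : Prop where
  inj : Function.Injective φ
  X : ∀ n x, x ∈ P'.pc Pc.X n ↔ ∃ r ∈ P.pc Pc.X n, φ r = x
  Y : ∀ n r, φ r ∈ P'.pc Pc.Y n ↔ r ∈ P.pc Pc.Y n
  YR : ∀ n x, ∃ r, ∃ y ∈ P'.pc Pc.Y n, x = φ r + y

/-- it maps sections to sections -/
theorem PExt.ok {P : PSy k R} {P' : PSy k S} {φ : R →ₐ[k] S} (h : PExt P P' φ) (α : I → ℤ) :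
    EmbOK P α P' α id φ := by
  intro s i j x hx
  cases s with
  | X => exact (h.X _ _).2 ⟨x, hx, rfl⟩
  | Y => exact (h.Y _ _).2 hx
  | R => exact P'.mem_R _ _

theorem embM_injective {e : I → I'} (he : Function.Injective e) {φ : R →ₐ[k] S}
    (hφ : Function.Injective φ) : Function.Injective (embM e φ) := by
  intro M N h
  ext i j
  have h1 := congrFun (congrFun h (e i)) (e j)
  rw [embM_apply he, embM_apply he] at h1
  exact hφ h1

theorem embM_id_apply (φ : R →ₐ[k] S) (M : Matrix I I R) (i j : I) :
    embM (id : I → I) φ M i j = φ (M i j) := embM_apply Function.injective_id φ M i j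

section

variable {P : PSy k R} {α : I → ℤ} {P' : PSy k S} {α' : I' → ℤ} {A B : DGA k} (z : Rz A P α)
  (z' : Rz B P' α') {e : I → I'} (he : Function.Injective e) {φ : R →ₐ[k] S}
  (h : EmbOK P α P' α' e φ)

theorem embH_injective (hφ : Function.Injective φ) :
    Function.Injective (embH z z' he h).f := by
  intro a b hab
  apply z.inj
  have h1 := congrArg z'.v hab
  rw [v_embH, v_embH] at h1
  funext s
  exact embM_injective he hφ (congrFun h1 s)

end

section

variable {P : PSy k R} {α : I → ℤ} {P' : PSy k S} {A B : DGA k} (z : Rz A P α)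
  (z' : Rz B P' α) {φ : R →ₐ[k] S} (h : EmbOK P α P' α (id : I → I) φ)

/-- the ring extension is a quasi-isomorphism -/
theorem embH_QI (hE : PExt P P' φ) :
    (embH z z' (Function.injective_id (α := I)) h).toHom.QI := by
  constructor
  · intro x y hx hxy
    have h1 := congrArg z'.v hxy
    rw [z'.D] at h1
    have h1' : embP (id : I → I) φ (z.v x) = cD k _ (z'.v y) := by
      rw [← h1]
      exact (v_embH z z' (Function.injective_id (α := I)) h x).symm
    have hXc : z.v x Pc.X = 0 := by
      ext i j
      apply hE.inj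
      have h2 := congrFun (congrFun (congrFun h1' Pc.X) i) j
      rw [embP_apply, embM_id_apply] at h2
      rw [h2, Matrix.zero_apply, map_zero]
      rfl
    have hYc : z.v x Pc.Y = 0 := by
      ext i j
      apply hE.inj
      have h2 := congrFun (congrFun (congrFun h1' Pc.Y) i) j
      rw [embP_apply, embM_id_apply] at h2
      rw [h2, Matrix.zero_apply, map_zero]
      rfl
    have hRc : ∀ i j, φ (z.v x Pc.R i j) = z'.v y Pc.Y i j - z'.v y Pc.X i j := by
      intro i j
      have h2 := congrFun (congrFun (congrFun h1' Pc.R) i) j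
      rw [embP_apply, embM_id_apply] at h2
      exact h2
    have hr : ∀ i j, ∃ r ∈ P.pc Pc.X (α j - α i), φ r = z'.v y Pc.X i j :=
      fun i j => (hE.X _ _).1 (z'.mem y Pc.X i j)
    choose r hrm hre using hr
    have hYm : ∀ i j, r i j + z.v x Pc.R i j ∈ P.pc Pc.Y (α j - α i) := by
      intro i j
      rw [← hE.Y, map_add, hre, hRc]
      have h3 := z'.mem y Pc.Y i j
      rwa [add_sub_cancel]
    let f : Pc → Matrix I I R := fun s => match s with
      | Pc.X => Matrix.of r
      | Pc.Y => Matrix.of fun i j => r i j + z.v x Pc.R i j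
      | Pc.R => 0
    have hf : f ∈ P.mats α := by
      intro s i j
      cases s with
      | X => exact hrm i j
      | Y => exact hYm i j
      | R => exact P.mem_R _ _
    refine ⟨z.el f hf, z.inj ?_⟩
    rw [z.D, z.v_el]
    funext s
    cases s with
    | X => rw [hXc]; rfl
    | Y => rw [hYc]; rfl
    | R =>
      ext i j
      change (r i j + z.v x Pc.R i j) - r i j = _
      rw [add_sub_cancel_left]
  · intro y hy
    have h1 := congrArg z'.v hy
    rw [z'.D, map_zero] at h1
    have hXY : ∀ i j, z'.v y Pc.Y i j = z'.v y Pc.X i j := by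
      intro i j
      have h2 : z'.v y Pc.Y i j - z'.v y Pc.X i j = 0 :=
        congrFun (congrFun (congrFun h1 Pc.R) i) j
      exact sub_eq_zero.1 h2
    have hr : ∀ i j, ∃ r ∈ P.pc Pc.X (α j - α i), φ r = z'.v y Pc.X i j :=
      fun i j => (hE.X _ _).1 (z'.mem y Pc.X i j)
    choose r hrm hre using hr
    have hrY : ∀ i j, r i j ∈ P.pc Pc.Y (α j - α i) := by
      intro i j
      rw [← hE.Y, hre, ← hXY]
      exact z'.mem y Pc.Y i j
    have hs : ∀ i j, ∃ q, ∃ w ∈ P'.pc Pc.Y (α j - α i), z'.v y Pc.R i j = φ q + w :=
      fun i j => hE.YR _ _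
    choose q w hw hqw using hs
    let f : Pc → Matrix I I R := fun s => match s with
      | Pc.X => Matrix.of r
      | Pc.Y => Matrix.of r
      | Pc.R => Matrix.of q
    have hf : f ∈ P.mats α := by
      intro s i j
      cases s with
      | X => exact hrm i j
      | Y => exact hrY i j
      | R => exact P.mem_R _ _
    let g : Pc → Matrix I I S := fun s => match s with
      | Pc.X => 0
      | Pc.Y => Matrix.of w
      | Pc.R => 0
    have hg : g ∈ P'.mats α := by
      intro s i j
      cases s with
      | X => exact Submodule.zero_mem _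
      | Y => exact hw i j
      | R => exact P'.mem_R _ _
    refine ⟨z.el f hf, z'.el g hg, z.inj ?_, z'.inj ?_⟩
    · rw [z.D, z.v_el, map_zero]
      funext s
      cases s with
      | X => rfl
      | Y => rfl
      | R =>
        ext i j
        change r i j - r i j = 0
        rw [sub_self]
    · have e2 : z'.v ((embH z z' (Function.injective_id (α := I)) h).toHom.f (z.el f hf))
          = embP (id : I → I) φ f := by
        refine (v_embH z z' (Function.injective_id (α := I)) h (z.el f hf)).trans ?_
        rw [z.v_el]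
      rw [map_add, e2, z'.D, z'.v_el]
      funext s
      ext i j
      cases s with
      | X =>
        change _ = embM (id : I → I) φ (Matrix.of r) i j + 0
        rw [embM_id_apply, add_zero, Matrix.of_apply, hre]
      | Y =>
        change _ = embM (id : I → I) φ (Matrix.of r) i j + 0
        rw [embM_id_apply, add_zero, Matrix.of_apply, hre, hXY]
      | R =>
        change _ = embM (id : I → I) φ (Matrix.of q) i j + (w i j - 0)
        rw [embM_id_apply, sub_zero, Matrix.of_apply, hqw]

/-- the ring extension on Hochschild complexes -/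
theorem hcA_ext_QI (hE : PExt P P' φ) :
    (hcA (embH z z' (Function.injective_id (α := I)) h)).QI :=
  hcA_QI_of_inj _ (embH_QI z z' h hE) (embH_injective z z' _ h hE.inj)

end

/-! ### the corner -/

section corner

variable {P' : PSy k S} {α : I → ℤ} {α' : I' → ℤ} {A B : DGA k} (z : Rz A P' α)
  (z' : Rz B P' α') {e : I → I'} (he : Function.Injective e)

theorem embOK_id (hα : ∀ i, α' (e i) = α i) : EmbOK P' α P' α' e (AlgHom.id k S) := by
  intro s i j x hx
  rw [hα, hα]
  exact hx

variable (h : EmbOK P' α P' α' e (AlgHom.id k S))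

theorem embM_one (φ : R →ₐ[k] S) (e : I → I') :
    embM e φ (1 : Matrix I I R) = selM S e * (selM S e).transpose := by
  rw [embM_def]
  have h1 : (1 : Matrix I I R).map φ = 1 := by
    rw [Matrix.map_one _ (map_zero φ) (map_one φ)]
  rw [h1, Matrix.mul_one]

theorem corner_surj (hα : ∀ i, α' (e i) = α i) (f : B.V)
    (h1 : (embH z z' he h).f 1 * f = f) (h2 : f * (embH z z' he h).f 1 = f)
    (hone : z.v 1 = cOne _) :
    ∃ a, (embH z z' he h).f a = f := by
  obtain ⟨T, hT⟩ : ∃ T : Matrix I' I S, T = selM S e := ⟨_, rfl⟩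
  have hTT : T.transpose * T = 1 := by rw [hT]; exact selM_selM he
  have hv1 : z'.v ((embH z z' he h).f 1) = embP e (AlgHom.id k S) (cOne _) := by
    rw [v_embH, hone]
  have hE : embM e (AlgHom.id k S) (1 : Matrix I I S) = T * T.transpose := by
    rw [hT]; exact embM_one _ e
  have g1 := congrArg z'.v h1
  have g2 := congrArg z'.v h2
  rw [z'.mul, hv1] at g1 g2
  have k1 : ∀ s, T * T.transpose * z'.v f s = z'.v f s := by
    intro s
    have h3 := congrFun g1 s
    cases s with
    | X =>
      have h4 : embM e (AlgHom.id k S) (1 : Matrix I I S) * z'.v f Pc.X = z'.v f Pc.X := h3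
      rwa [hE] at h4
    | Y =>
      have h4 : embM e (AlgHom.id k S) (1 : Matrix I I S) * z'.v f Pc.Y = z'.v f Pc.Y := h3
      rwa [hE] at h4
    | R =>
      have h4 : embM e (AlgHom.id k S) (1 : Matrix I I S) * z'.v f Pc.R
        + embM e (AlgHom.id k S) (0 : Matrix I I S) * z'.v f Pc.Y = z'.v f Pc.R := h3
      rwa [hE, map_zero, zero_mul, add_zero] at h4
  have k2 : ∀ s, z'.v f s * (T * T.transpose) = z'.v f s := by
    intro s
    have h3 := congrFun g2 s
    cases s with
    | X =>
      have h4 : z'.v f Pc.X * embM e (AlgHom.id k S) (1 : Matrix I I S) = z'.v f Pc.X := h3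
      rwa [hE] at h4
    | Y =>
      have h4 : z'.v f Pc.Y * embM e (AlgHom.id k S) (1 : Matrix I I S) = z'.v f Pc.Y := h3
      rwa [hE] at h4
    | R =>
      have h4 : z'.v f Pc.X * embM e (AlgHom.id k S) (0 : Matrix I I S)
        + z'.v f Pc.R * embM e (AlgHom.id k S) (1 : Matrix I I S) = z'.v f Pc.R := h3
      rwa [hE, map_zero, mul_zero, zero_add] at h4
  let g : Pc → Matrix I I S := fun s => Matrix.of fun i j => z'.v f s (e i) (e j)
  have hg : g ∈ P'.mats α := by
    intro s i j
    have h3 := z'.mem f s (e i) (e j)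
    rw [hα, hα] at h3
    exact h3
  refine ⟨z.el g hg, z'.inj ?_⟩
  rw [v_embH, z.v_el]
  funext s
  have hgs : g s = T.transpose * z'.v f s * T := by
    ext i j
    rw [Matrix.mul_apply, Finset.sum_eq_single (e j)]
    · rw [Matrix.mul_apply, Finset.sum_eq_single (e i)]
      · change z'.v f s (e i) (e j) = _
        rw [hT]
        simp [selM]
      · intro p _ hp
        rw [hT]
        simp [selM, Ne.symm hp]
      · intro hh; exact absurd (Finset.mem_univ _) hh
    · intro p _ hp
      rw [hT]
      simp [selM, Ne.symm hp]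
    · intro hh; exact absurd (Finset.mem_univ _) hh
  rw [embP_apply, embM_def, hgs, ← hT]
  have h5 : (T.transpose * z'.v f s * T).map (AlgHom.id k S) = T.transpose * z'.v f s * T :=
    Matrix.ext fun _ _ => rfl
  rw [h5]
  calc T * (T.transpose * z'.v f s * T) * T.transpose
      = (T * T.transpose * z'.v f s) * (T * T.transpose) := by simp only [Matrix.mul_assoc]
    _ = z'.v f s := by rw [k1, k2]

end corner

end H36.QX
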