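import Pool.Agent.H36.QX.Emb

/-!
# Sg : matrix units in algebras of Čech matrices

`z.sg p q a ha` has the single entry `a` at `(p, q)`; `tr3 x y r` is the Čech triple.
-/

set_option autoImplicit false
set_option linter.unusedSectionVars false

open NC

noncomputable section

namespace H36.QX

open H36.NX

variable {k : Type} [Field k] {S : Type} [CommRing S] [Algebra k S]
  {I : Type} [Fintype I] [DecidableEq I]

theorem single_neg' (p q : I) (x : S) :
    -(Matrix.single p q x : Matrix I I S) = Matrix.single p q (-x) := by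
  ext i j
  rw [Matrix.neg_apply, Matrix.single_apply, Matrix.single_apply]
  split
  · rfl
  · rw [neg_zero]

theorem single_sub' (p q : I) (x y : S) :
    (Matrix.single p q x : Matrix I I S) - Matrix.single p q y = Matrix.single p q (x - y) := by
  ext i j
  rw [Matrix.sub_apply, Matrix.single_apply, Matrix.single_apply, Matrix.single_apply]
  split
  · rfl
  · rw [sub_zero]

/-- a Čech triple -/
def tr3 (x y r : S) : Pc → S
  | Pc.X => x
  | Pc.Y => y
  | Pc.R => r

theorem tr3_mem (P : PSy k S) (n : ℤ) {x y : S} (r : S) (hx : x ∈ P.pc Pc.X n)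
    (hy : y ∈ P.pc Pc.Y n) (s : Pc) : tr3 x y r s ∈ P.pc s n := by
  cases s with
  | X => exact hx
  | Y => exact hy
  | R => exact P.mem_R _ _

theorem single_mats (P : PSy k S) (α : I → ℤ) (p q : I) (a : Pc → S)
    (ha : ∀ s, a s ∈ P.pc s (α q - α p)) :
    (fun s => Matrix.single p q (a s)) ∈ P.mats α := by
  intro s i j
  change Matrix.single p q (a s) i j ∈ _
  rw [Matrix.single_apply]
  split
  · next h =>
    obtain ⟨rfl, rfl⟩ := h
    exact ha s
  · exact Submodule.zero_mem _

theorem cMul_cOne_left' (f : Pc → Matrix I I S) :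
    cMul k (LinearMap.mul k (Matrix I I S)) (cOne (Matrix I I S)) f = f := by
  funext s; cases s <;> simp

theorem cMul_cOne_right' (f : Pc → Matrix I I S) :
    cMul k (LinearMap.mul k (Matrix I I S)) f (cOne (Matrix I I S)) = f := by
  funext s; cases s <;> simp

namespace Rz

variable {A : DGA k} {P : PSy k S} {α : I → ℤ} (z : Rz A P α)

theorem v_one : z.v 1 = cOne _ := by
  have h : z.el (cOne _) (P.mats_one α) = 1 := by
    rw [← mul_one (z.el (cOne _) (P.mats_one α))]
    apply z.inj
    rw [z.mul, z.v_el, cMul_cOne_left']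
  rw [← h, z.v_el]

/-- a matrix unit -/
def sg (p q : I) (a : Pc → S) (ha : ∀ s, a s ∈ P.pc s (α q - α p)) : A.V :=
  z.el (fun s => Matrix.single p q (a s)) (single_mats P α p q a ha)

theorem v_sg (p q : I) (a : Pc → S) (ha : ∀ s, a s ∈ P.pc s (α q - α p)) :
    z.v (z.sg p q a ha) = fun s => Matrix.single p q (a s) := z.v_el _ _

theorem sg_congr (p q : I) {a b : Pc → S} (ha : ∀ s, a s ∈ P.pc s (α q - α p))
    (hb : ∀ s, b s ∈ P.pc s (α q - α p)) (h : a = b) : z.sg p q a ha = z.sg p q b hb := by
  subst h; rfl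

theorem sg_mul (p q r : I) {x y w x' y' w' : S} (ha : ∀ s, tr3 x y w s ∈ P.pc s (α q - α p))
    (hb : ∀ s, tr3 x' y' w' s ∈ P.pc s (α r - α q))
    (hc : ∀ s, tr3 (x * x') (y * y') (x * w' + w * y') s ∈ P.pc s (α r - α p)) :
    z.sg p q (tr3 x y w) ha * z.sg q r (tr3 x' y' w') hb =
      z.sg p r (tr3 (x * x') (y * y') (x * w' + w * y')) hc := by
  apply z.inj
  rw [z.mul, z.v_sg, z.v_sg, z.v_sg]
  funext s
  cases s with
  | X => exact Matrix.single_mul_single_same _ _ _ _ _
  | Y => exact Matrix.single_mul_single_same _ _ _ _ _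
  | R =>
    change Matrix.single p q x * Matrix.single q r w' + Matrix.single p q w * Matrix.single q r y'
      = Matrix.single p r (x * w' + w * y')
    rw [Matrix.single_mul_single_same, Matrix.single_mul_single_same, Matrix.single_add]

theorem sg_D (p q : I) {x y w : S} (ha : ∀ s, tr3 x y w s ∈ P.pc s (α q - α p))
    (hc : ∀ s, tr3 0 0 (y - x) s ∈ P.pc s (α q - α p)) :
    A.D (z.sg p q (tr3 x y w) ha) = z.sg p q (tr3 0 0 (y - x)) hc := by
  apply z.inj
  rw [z.D, z.v_sg, z.v_sg]
  funext s
  cases s with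
  | X => exact (Matrix.single_zero p q).symm
  | Y => exact (Matrix.single_zero p q).symm
  | R =>
    exact single_sub' p q y x

theorem sg_P (p q : I) {x y w : S} (ha : ∀ s, tr3 x y w s ∈ P.pc s (α q - α p))
    (hc : ∀ s, tr3 x y 0 s ∈ P.pc s (α q - α p)) :
    A.P (z.sg p q (tr3 x y w) ha) = z.sg p q (tr3 x y 0) hc := by
  apply z.inj
  rw [z.P, z.v_sg, z.v_sg]
  funext s
  cases s with
  | X => rfl
  | Y => rfl
  | R => exact (Matrix.single_zero p q).symm

theorem sg_zero (p q : I) (ha : ∀ s, tr3 (0 : S) 0 0 s ∈ P.pc s (α q - α p)) :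
    z.sg p q (tr3 0 0 0) ha = 0 := by
  apply z.inj
  rw [z.v_sg, map_zero]
  funext s
  cases s with
  | X => exact Matrix.single_zero p q
  | Y => exact Matrix.single_zero p q
  | R => exact Matrix.single_zero p q

theorem sg_add (p q : I) {x y w x' y' w' : S} (ha : ∀ s, tr3 x y w s ∈ P.pc s (α q - α p))
    (hb : ∀ s, tr3 x' y' w' s ∈ P.pc s (α q - α p))
    (hc : ∀ s, tr3 (x + x') (y + y') (w + w') s ∈ P.pc s (α q - α p)) :
    z.sg p q (tr3 x y w) ha + z.sg p q (tr3 x' y' w') hb
      = z.sg p q (tr3 (x + x') (y + y') (w + w')) hc := by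
  apply z.inj
  rw [map_add, z.v_sg, z.v_sg, z.v_sg]
  funext s
  cases s with
  | X => exact (Matrix.single_add p q _ _).symm
  | Y => exact (Matrix.single_add p q _ _).symm
  | R => exact (Matrix.single_add p q _ _).symm

theorem sg_neg (p q : I) {x y w : S} (ha : ∀ s, tr3 x y w s ∈ P.pc s (α q - α p))
    (hc : ∀ s, tr3 (-x) (-y) (-w) s ∈ P.pc s (α q - α p)) :
    - z.sg p q (tr3 x y w) ha = z.sg p q (tr3 (-x) (-y) (-w)) hc := by
  apply z.inj
  rw [map_neg, z.v_sg, z.v_sg]
  funext s
  cases s with
  | X => exact single_neg' p q x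
  | Y => exact single_neg' p q y
  | R => exact single_neg' p q w

theorem sg_E (p q : I) {x y w : S} (ha : ∀ s, tr3 x y w s ∈ P.pc s (α q - α p))
    (hc : ∀ s, tr3 x y (-w) s ∈ P.pc s (α q - α p)) :
    A.E (z.sg p q (tr3 x y w) ha) = z.sg p q (tr3 x y (-w)) hc := by
  have h0 : ∀ s, tr3 x y 0 s ∈ P.pc s (α q - α p) := fun s => by
    cases s with
    | X => exact ha Pc.X
    | Y => exact ha Pc.Y
    | R => exact P.mem_R _ _
  have h1 : A.E (z.sg p q (tr3 x y w) ha) = A.P (z.sg p q (tr3 x y w) ha)
    + A.P (z.sg p q (tr3 x y w) ha) - z.sg p q (tr3 x y w) ha := rfl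
  rw [h1, z.sg_P p q ha h0]
  apply z.inj
  rw [map_sub, map_add, z.v_sg, z.v_sg, z.v_sg]
  funext s
  cases s with
  | X =>
    change Matrix.single p q x + Matrix.single p q x - Matrix.single p q x = Matrix.single p q x
    rw [add_sub_cancel_right]
  | Y =>
    change Matrix.single p q y + Matrix.single p q y - Matrix.single p q y = Matrix.single p q y
    rw [add_sub_cancel_right]
  | R =>
    change Matrix.single p q 0 + Matrix.single p q 0 - Matrix.single p q w = Matrix.single p q (-w)
    rw [Matrix.single_zero, add_zero, zero_sub, single_neg']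

end Rz

variable {S' : Type} [CommRing S'] [Algebra k S'] {I' : Type} [Fintype I'] [DecidableEq I']

theorem embM_single {e : I → I'} (φ : S →ₐ[k] S') (p q : I)
    (x : S) : embM e φ (Matrix.single p q x) = Matrix.single (e p) (e q) (φ x) := by
  ext i j
  rw [embM_apply', Finset.sum_eq_single q, Finset.sum_eq_single p]
  · rw [Matrix.single_apply_same, Matrix.single_apply]
  · intro b _ hb
    have h0 : Matrix.single p q x b q = 0 := by
      rw [Matrix.single_apply, if_neg (fun h => hb h.1.symm)]
    rw [h0, map_zero, ite_self]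
  · intro h; exact absurd (Finset.mem_univ _) h
  · intro b _ hb
    refine Finset.sum_eq_zero fun a _ => ?_
    have h0 : Matrix.single p q x a b = 0 := by
      rw [Matrix.single_apply, if_neg (fun h => hb h.2.symm)]
    rw [h0, map_zero, ite_self]
  · intro h; exact absurd (Finset.mem_univ _) h

theorem embH_sg {P : PSy k S} {α : I → ℤ} {P' : PSy k S'} {α' : I' → ℤ} {A B : DGA k}
    (z : Rz A P α) (z' : Rz B P' α') {e : I → I'} (he : Function.Injective e) {φ : S →ₐ[k] S'}
    (h : EmbOK P α P' α' e φ) (p q : I) {x y w : S}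
    (ha : ∀ s, tr3 x y w s ∈ P.pc s (α q - α p))
    (hb : ∀ s, tr3 (φ x) (φ y) (φ w) s ∈ P'.pc s (α' (e q) - α' (e p))) :
    (embH z z' he h).f (z.sg p q (tr3 x y w) ha)
      = z'.sg (e p) (e q) (tr3 (φ x) (φ y) (φ w)) hb := by
  apply z'.inj
  rw [v_embH, z.v_sg, z'.v_sg]
  funext s
  cases s with
  | X => exact embM_single φ p q x
  | Y => exact embM_single φ p q y
  | R => exact embM_single φ p q w

theorem embM_one_l (e : I → I') (he : Function.Injective e) (φ : S →ₐ[k] S') (p : I) (i : I') :
    embM e φ (1 : Matrix I I S) i (e p) = if e p = i then 1 else 0 := by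
  by_cases hi : e p = i
  · subst hi
    rw [embM_apply he, Matrix.one_apply_eq, map_one, if_pos rfl]
  · by_cases hi' : ∃ i', e i' = i
    · obtain ⟨i', rfl⟩ := hi'
      rw [embM_apply he, Matrix.one_apply_ne (fun h => hi (congrArg e h).symm), map_zero,
        if_neg hi]
    · rw [embM_apply_zero e φ _ i (e p) (fun a b hab => hi' ⟨a, hab.1⟩), if_neg hi]

theorem embM_one_r (e : I → I') (he : Function.Injective e) (φ : S →ₐ[k] S') (p : I) (j : I') :
    embM e φ (1 : Matrix I I S) (e p) j = if e p = j then 1 else 0 := by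
  by_cases hi : e p = j
  · subst hi
    rw [embM_apply he, Matrix.one_apply_eq, map_one, if_pos rfl]
  · by_cases hi' : ∃ i', e i' = j
    · obtain ⟨i', rfl⟩ := hi'
      rw [embM_apply he, Matrix.one_apply_ne (fun h => hi (congrArg e h)), map_zero,
        if_neg hi]
    · rw [embM_apply_zero e φ _ (e p) j (fun a b hab => hi' ⟨b, hab.2⟩), if_neg hi]

theorem embM_one_single (e : I → I') (he : Function.Injective e) (φ : S →ₐ[k] S') (p : I)
    (q : I') (x : S') : embM e φ (1 : Matrix I I S) * Matrix.single (e p) q x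
      = Matrix.single (e p) q x := by
  ext i j
  rw [Matrix.mul_apply, Finset.sum_eq_single (e p)]
  · have h1 : Matrix.single (e p) q x (e p) j = if q = j then x else 0 := by
      rw [Matrix.single_apply]; simp
    have h2 : Matrix.single (e p) q x i j = if e p = i ∧ q = j then x else 0 := by
      rw [Matrix.single_apply]
    rw [h1, h2, embM_one_l e he]
    by_cases hi : e p = i <;> by_cases hj : q = j <;> simp [hi, hj]
  · intro b _ hb
    have h1 : Matrix.single (e p) q x b j = 0 := by
      rw [Matrix.single_apply, if_neg (fun h => hb h.1.symm)]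
    rw [h1, mul_zero]
  · intro h; exact absurd (Finset.mem_univ _) h

theorem single_embM_one (e : I → I') (he : Function.Injective e) (φ : S →ₐ[k] S') (p : I')
    (q : I) (x : S') : Matrix.single p (e q) x * embM e φ (1 : Matrix I I S)
      = Matrix.single p (e q) x := by
  ext i j
  rw [Matrix.mul_apply, Finset.sum_eq_single (e q)]
  · have h1 : Matrix.single p (e q) x i (e q) = if p = i then x else 0 := by
      rw [Matrix.single_apply]; simp
    have h2 : Matrix.single p (e q) x i j = if p = i ∧ e q = j then x else 0 := by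
      rw [Matrix.single_apply]
    rw [h1, h2, embM_one_r e he]
    by_cases hi : p = i <;> by_cases hj : e q = j <;> simp [hi, hj]
  · intro b _ hb
    have h1 : Matrix.single p (e q) x i b = 0 := by
      rw [Matrix.single_apply, if_neg (fun h => hb h.2.symm)]
    rw [h1, zero_mul]
  · intro h; exact absurd (Finset.mem_univ _) h

/-- the image of the unit acts as unit on the left of matrix units -/
theorem embH_one_sg {P : PSy k S} {α : I → ℤ} {P' : PSy k S'} {α' : I' → ℤ} {A B : DGA k}
    (z : Rz A P α) (z' : Rz B P' α') {e : I → I'} (he : Function.Injective e) {φ : S →ₐ[k] S'}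
    (h : EmbOK P α P' α' e φ) (p : I) (q : I') {x y w : S'}
    (hb : ∀ s, tr3 x y w s ∈ P'.pc s (α' q - α' (e p))) :
    (embH z z' he h).f 1 * z'.sg (e p) q (tr3 x y w) hb = z'.sg (e p) q (tr3 x y w) hb := by
  apply z'.inj
  rw [z'.mul, v_embH, z.v_one, z'.v_sg]
  funext s
  cases s with
  | X => exact embM_one_single e he φ p q x
  | Y => exact embM_one_single e he φ p q y
  | R =>
    change embM e φ (1 : Matrix I I S) * Matrix.single (e p) q w
      + embM e φ (0 : Matrix I I S) * Matrix.single (e p) q y = Matrix.single (e p) q w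
    rw [embM_one_single e he, map_zero, zero_mul, add_zero]

/-- the image of the unit acts as unit on the right of matrix units -/
theorem embH_sg_one {P : PSy k S} {α : I → ℤ} {P' : PSy k S'} {α' : I' → ℤ} {A B : DGA k}
    (z : Rz A P α) (z' : Rz B P' α') {e : I → I'} (he : Function.Injective e) {φ : S →ₐ[k] S'}
    (h : EmbOK P α P' α' e φ) (p : I') (q : I) {x y w : S'}
    (hb : ∀ s, tr3 x y w s ∈ P'.pc s (α' (e q) - α' p)) :
    z'.sg p (e q) (tr3 x y w) hb * (embH z z' he h).f 1 = z'.sg p (e q) (tr3 x y w) hb := by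
  apply z'.inj
  rw [z'.mul, v_embH, z.v_one, z'.v_sg]
  funext s
  cases s with
  | X => exact single_embM_one e he φ p q x
  | Y => exact single_embM_one e he φ p q y
  | R =>
    change Matrix.single p (e q) x * embM e φ (0 : Matrix I I S)
      + Matrix.single p (e q) w * embM e φ (1 : Matrix I I S) = Matrix.single p (e q) w
    rw [single_embM_one e he, map_zero, mul_zero, zero_add]

end H36.QX
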