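import Pool.Agent.H16.QE.Corn3
import Pool.Agent.H16.QE.EmbQI
import Pool.Agent.H16.QE.Sg
import Pool.Agent.H94.NC.Asm

/-!
# CornQI : adding the object `O(2)` and extending the ring is a quasi-isomorphism on Hochschild complexes
-/

set_option autoImplicit false
set_option linter.unusedSectionVars false

open NC

noncomputable section

namespace H36.QX

open H36.NX

variable {k : Type} [Field k] {R S : Type} [CommRing R] [Algebra k R] [CommRing S] [Algebra k S]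

/-- two global sections of `O(1)` without common zero -/
structure PUn (P : PSy k S) where
  u : S
  ui : S
  ui_u : ui * u = 1
  oneX : ∀ n, (1 : S) ∈ P.pc Pc.X n
  uX : u ∈ P.pc Pc.X 1
  oneY : (1 : S) ∈ P.pc Pc.Y 1
  uY : u ∈ P.pc Pc.Y 1
  uiY : ui ∈ P.pc Pc.Y (-1)

section corner

variable {P : PSy k S} (U : PUn P) {α : Fin 2 → ℤ} {α' : Fin 3 → ℤ} {A B : DGA k} (z : Rz A P α)
  (z' : Rz B P α') (h : EmbOK P α P α' (Fin.castSucc : Fin 2 → Fin 3) (AlgHom.id k S))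

include U in
/-- the corner is a Morita equivalence -/
theorem hcA_corner_QI (h0 : α' 0 = 0) (h1 : α' 1 = 1) (h2 : α' 2 = 2) (k0 : α 0 = 0)
    (k1 : α 1 = 1) : (hcA (embH z z' (Fin.castSucc_injective 2) h)).QI := by
  have hcs : ∀ i : Fin 2, α' (Fin.castSucc i) = α i := by
    intro i
    fin_cases i
    · exact h0.trans k0.symm
    · exact h1.trans k1.symm
  have e21 : α' 1 - α' 2 = -1 := by rw [h1, h2]; norm_num
  have e12 : α' 2 - α' 1 = 1 := by rw [h1, h2]; norm_num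
  have e02 : α' 2 - α' 0 = 2 := by rw [h0, h2]; norm_num
  have e01 : α' 1 - α' 0 = 1 := by rw [h0, h1]; norm_num
  have f01 : α 1 - α 0 = 1 := by rw [k0, k1]; norm_num
  have Z : ∀ (s : Pc) (n : ℤ), (0 : S) ∈ P.pc s n := fun s n => Submodule.zero_mem _
  -- the generators
  have hm1 : ∀ s, tr3 (1 : S) 0 0 s ∈ P.pc s (α' (Fin.castSucc 1) - α' 2) :=
    tr3_mem P _ 0 (U.oneX _) (Z _ _)
  have hm2 : ∀ s, tr3 (0 : S) U.ui 0 s ∈ P.pc s (α' (Fin.castSucc 1) - α' 2) :=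
    tr3_mem P _ 0 (Z _ _) (by
      have e : α' (Fin.castSucc 1) - α' 2 = -1 := e21
      rw [e]; exact U.uiY)
  have hm3 : ∀ s, tr3 (0 : S) 0 (-U.ui) s ∈ P.pc s (α' (Fin.castSucc 0) - α' 2) :=
    tr3_mem P _ _ (Z _ _) (Z _ _)
  have hx1 : ∀ s, tr3 (1 : S) 1 0 s ∈ P.pc s (α' 2 - α' (Fin.castSucc 1)) :=
    tr3_mem P _ 0 (U.oneX _) (by
      have e : α' 2 - α' (Fin.castSucc 1) = 1 := e12
      rw [e]; exact U.oneY)
  have hx2 : ∀ s, tr3 U.u U.u 0 s ∈ P.pc s (α' 2 - α' (Fin.castSucc 1)) :=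
    tr3_mem P _ 0 (by
      have e : α' 2 - α' (Fin.castSucc 1) = 1 := e12
      rw [e]; exact U.uX) (by
      have e : α' 2 - α' (Fin.castSucc 1) = 1 := e12
      rw [e]; exact U.uY)
  have ha : ∀ s, tr3 U.u U.u 0 s ∈ P.pc s (α 1 - α 0) := by
    rw [f01]; exact tr3_mem P _ 0 U.uX U.uY
  have hb : ∀ s, tr3 (-1 : S) (-1) 0 s ∈ P.pc s (α 1 - α 0) := by
    rw [f01]
    exact tr3_mem P _ 0 (Submodule.neg_mem _ (U.oneX _)) (Submodule.neg_mem _ U.oneY)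
  have ha' : ∀ s, tr3 U.u U.u 0 s ∈ P.pc s (α' (Fin.castSucc 1) - α' (Fin.castSucc 0)) := by
    rw [hcs, hcs]; exact ha
  have hb' : ∀ s, tr3 (-1 : S) (-1) 0 s ∈ P.pc s (α' (Fin.castSucc 1) - α' (Fin.castSucc 0)) := by
    rw [hcs, hcs]; exact hb
  have ia : (embH z z' (Fin.castSucc_injective 2) h).f (z.sg 0 1 (tr3 U.u U.u 0) ha)
      = z'.sg (Fin.castSucc 0) (Fin.castSucc 1) (tr3 U.u U.u 0) ha' :=
    embH_sg z z' (Fin.castSucc_injective 2) h 0 1 ha ha'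
  have ib : (embH z z' (Fin.castSucc_injective 2) h).f (z.sg 0 1 (tr3 (-1) (-1) 0) hb)
      = z'.sg (Fin.castSucc 0) (Fin.castSucc 1) (tr3 (-1) (-1) 0) hb' :=
    embH_sg z z' (Fin.castSucc_injective 2) h 0 1 hb hb'
  have hD : ∀ (p q : Fin 3) (w : S) (s : Pc), tr3 (0 : S) 0 w s ∈ P.pc s (α' q - α' p) :=
    fun p q w => tr3_mem P _ _ (Z _ _) (Z _ _)
  have hD2 : ∀ (p q : Fin 2) (w : S) (s : Pc), tr3 (0 : S) 0 w s ∈ P.pc s (α q - α p) :=
    fun p q w => tr3_mem P _ _ (Z _ _) (Z _ _)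
  refine hcA_QI_of_corner3 _ (embH_injective z z' _ h (fun a b hab => hab))
    (fun f g1 g2 => corner_surj z z' (Fin.castSucc_injective 2) h hcs f g1 g2 z.v_one)
    (z'.sg 2 (Fin.castSucc 1) (tr3 1 0 0) hm1) (z'.sg 2 (Fin.castSucc 1) (tr3 0 U.ui 0) hm2)
    (z'.sg 2 (Fin.castSucc 0) (tr3 0 0 (-U.ui)) hm3)
    (z'.sg (Fin.castSucc 1) 2 (tr3 1 1 0) hx1) (z'.sg (Fin.castSucc 1) 2 (tr3 U.u U.u 0) hx2)
    (z.sg 0 1 (tr3 U.u U.u 0) ha) (z.sg 0 1 (tr3 (-1) (-1) 0) hb)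
    (embH_sg_one z z' _ h _ _ hm1) (embH_sg_one z z' _ h _ _ hm2) (embH_sg_one z z' _ h _ _ hm3)
    (embH_one_sg z z' _ h _ _ hx1) (embH_one_sg z z' _ h _ _ hx2)
    ?_ ?_ ?_ ?_ ?_ ?_ ?_ ?_ ?_ ?_ ?_ ?_ ?_ ?_
  · rw [z'.sg_E _ _ hm1 (by simpa using hm1)]
    exact z'.sg_congr _ _ _ _ (by rw [neg_zero])
  · rw [z'.sg_E _ _ hm2 (by simpa using hm2)]
    exact z'.sg_congr _ _ _ _ (by rw [neg_zero])
  · rw [z'.sg_E _ _ hm3 (hD _ _ _), z'.sg_neg _ _ hm3 (by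
      rw [neg_zero]; exact hD _ _ _)]
    exact z'.sg_congr _ _ _ _ (by rw [neg_zero])
  · rw [z.sg_E _ _ ha (by simpa using ha)]
    exact z.sg_congr _ _ _ _ (by rw [neg_zero])
  · rw [z.sg_E _ _ hb (by simpa using hb)]
    exact z.sg_congr _ _ _ _ (by rw [neg_zero])
  · rw [ia, z'.sg_D _ _ hm1 (hD _ _ _), z'.sg_mul _ _ _ hm3 ha' (by
      simp only [zero_mul]; exact hD _ _ _)]
    refine z'.sg_congr _ _ _ _ ?_
    congr 1
    · rw [zero_mul]
    · rw [zero_mul]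
    · rw [mul_zero, zero_add, neg_mul, U.ui_u, zero_sub]
  · rw [ib, z'.sg_D _ _ hm2 (hD _ _ _), z'.sg_mul _ _ _ hm3 hb' (by
      simp only [zero_mul]; exact hD _ _ _)]
    refine z'.sg_congr _ _ _ _ ?_
    congr 1
    · rw [zero_mul]
    · rw [zero_mul]
    · rw [mul_zero, zero_add, neg_mul_neg, mul_one, sub_zero]
  · rw [z'.sg_D _ _ hm3 (hD _ _ _)]
    refine (z'.sg_congr _ _ _ (hD _ _ 0) ?_).trans (z'.sg_zero _ _ _)
    rw [sub_zero]
  · rw [z'.sg_D _ _ hx1 (hD _ _ _)]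
    refine (z'.sg_congr _ _ _ (hD _ _ 0) ?_).trans (z'.sg_zero _ _ _)
    rw [sub_self]
  · rw [z'.sg_D _ _ hx2 (hD _ _ _)]
    refine (z'.sg_congr _ _ _ (hD _ _ 0) ?_).trans (z'.sg_zero _ _ _)
    rw [sub_self]
  · rw [z.sg_D _ _ ha (hD2 _ _ _)]
    refine (z.sg_congr _ _ _ (hD2 _ _ 0) ?_).trans (z.sg_zero _ _ _)
    rw [sub_self]
  · rw [z.sg_D _ _ hb (hD2 _ _ _)]
    refine (z.sg_congr _ _ _ (hD2 _ _ 0) ?_).trans (z.sg_zero _ _ _)
    rw [sub_self]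
  · have g1 : ∀ s, tr3 (U.u * 1) (U.u * 1) (U.u * 0 + 0 * 1) s
        ∈ P.pc s (α' 2 - α' (Fin.castSucc 0)) := by
      have e : α' 2 - α' (Fin.castSucc 0) = 1 + 1 := by
        change α' 2 - α' 0 = 1 + 1
        rw [e02]; norm_num
      rw [e]
      exact tr3_mem P _ _ (P.mul _ _ _ _ _ U.uX (U.oneX _)) (P.mul _ _ _ _ _ U.uY U.oneY)
    have g2 : ∀ s, tr3 (-1 * U.u) (-1 * U.u) (-1 * 0 + 0 * U.u) s
        ∈ P.pc s (α' 2 - α' (Fin.castSucc 0)) := by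
      have e : α' 2 - α' (Fin.castSucc 0) = 1 + 1 := by
        change α' 2 - α' 0 = 1 + 1
        rw [e02]; norm_num
      rw [e]
      exact tr3_mem P _ _ (P.mul _ _ _ _ _ (Submodule.neg_mem _ (U.oneX _)) U.uX)
        (P.mul _ _ _ _ _ (Submodule.neg_mem _ U.oneY) U.uY)
    rw [ia, ib, z'.sg_mul _ _ _ ha' hx1 g1, z'.sg_mul _ _ _ hb' hx2 g2, z'.sg_add _ _ g1 g2 (by
      have e : tr3 (U.u * 1 + -1 * U.u) (U.u * 1 + -1 * U.u)
        (U.u * 0 + 0 * 1 + (-1 * 0 + 0 * U.u)) = tr3 (0 : S) 0 0 := by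
        congr 1 <;> ring
      rw [e]; exact hD _ _ _)]
    refine (z'.sg_congr _ _ _ (hD _ _ 0) ?_).trans (z'.sg_zero _ _ _)
    congr 1 <;> ring
  · have g1 : ∀ s, tr3 ((1 : S) * 1) (0 * 1) (1 * 0 + 0 * 1) s ∈ P.pc s (α' 2 - α' 2) := by
      rw [sub_self]
      have := tr3_mem P 0 (0 : S) (P.one Pc.X) (Z Pc.Y 0)
      simpa using this
    have g2 : ∀ s, tr3 ((0 : S) * U.u) (U.ui * U.u) (0 * 0 + 0 * U.u) s
        ∈ P.pc s (α' 2 - α' 2) := by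
      rw [sub_self]
      have := tr3_mem P 0 (0 : S) (Z Pc.X 0) (P.one Pc.Y)
      simpa [U.ui_u] using this
    rw [z'.sg_mul _ _ _ hm1 hx1 g1, z'.sg_mul _ _ _ hm2 hx2 g2]
    apply z'.inj
    rw [map_add, map_add, z'.v_sg, z'.v_sg, v_embH, z.v_one, z'.v_one]
    have key : embM (Fin.castSucc : Fin 2 → Fin 3) (AlgHom.id k S) (1 : Matrix (Fin 2) (Fin 2) S)
        + Matrix.single 2 2 (1 : S) = 1 := by
      have g3 : (1 : Matrix (Fin 2) (Fin 2) S) = Matrix.single 0 0 1 + Matrix.single 1 1 1 := by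
        ext i j
        fin_cases i <;> fin_cases j <;> simp
      rw [g3, map_add, embM_single, embM_single, map_one]
      ext i j
      fin_cases i <;> fin_cases j <;> simp
    funext s
    cases s with
    | X =>
      change embM (Fin.castSucc : Fin 2 → Fin 3) (AlgHom.id k S) (1 : Matrix (Fin 2) (Fin 2) S)
        + (Matrix.single 2 2 ((1 : S) * 1) + Matrix.single 2 2 ((0 : S) * U.u)) = 1
      rw [mul_one, zero_mul, Matrix.single_zero, add_zero, key]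
    | Y =>
      change embM (Fin.castSucc : Fin 2 → Fin 3) (AlgHom.id k S) (1 : Matrix (Fin 2) (Fin 2) S)
        + (Matrix.single 2 2 ((0 : S) * 1) + Matrix.single 2 2 (U.ui * U.u)) = 1
      rw [zero_mul, Matrix.single_zero, zero_add, U.ui_u, key]
    | R =>
      change embM (Fin.castSucc : Fin 2 → Fin 3) (AlgHom.id k S) (0 : Matrix (Fin 2) (Fin 2) S)
        + (Matrix.single 2 2 ((1 : S) * 0 + 0 * 1) + Matrix.single 2 2 ((0 : S) * 0 + 0 * U.u)) = 0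
      rw [map_zero, mul_zero, mul_zero, zero_mul, zero_mul, add_zero, Matrix.single_zero,
        add_zero, add_zero]

end corner

/-- the extension of the ring together with the new object `O(2)` -/
theorem hcA_emb_QI {P : PSy k R} {P' : PSy k S} {φ : R →ₐ[k] S} (hE : PExt P P' φ) (U : PUn P')
    {α : Fin 2 → ℤ} {α' : Fin 3 → ℤ} {A B : DGA k} (z : Rz A P α) (z' : Rz B P' α')
    (h : EmbOK P α P' α' (Fin.castSucc : Fin 2 → Fin 3) φ)
    (h0 : α' 0 = 0) (h1 : α' 1 = 1) (h2 : α' 2 = 2) (k0 : α 0 = 0) (k1 : α 1 = 1) :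
    (hcA (embH z z' (Fin.castSucc_injective 2) h)).QI := by
  have hcs : ∀ i : Fin 2, α' (Fin.castSucc i) = α i := by
    intro i
    fin_cases i
    · exact h0.trans k0.symm
    · exact h1.trans k1.symm
  have hc := embOK_id (P' := P') (α := α) (α' := α') (e := (Fin.castSucc : Fin 2 → Fin 3)) hcs
  have q1 := hcA_corner_QI U (CA.rz P' α) z' hc h0 h1 h2 k0 k1
  have q2 := hcA_ext_QI z (CA.rz P' α) (hE.ok α) hE
  refine (q1.comp q2).congr (fun w => ?_)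
  refine hcA_comp _ _ _ (fun a => ?_) w
  apply z'.inj
  rw [v_embH, v_embH, v_embH]
  funext s
  ext p q
  rw [embP_apply, embP_apply, embP_apply]
  by_cases hpq : ∃ i j : Fin 2, Fin.castSucc i = p ∧ Fin.castSucc j = q
  · obtain ⟨i, j, rfl, rfl⟩ := hpq
    rw [embM_apply (Fin.castSucc_injective 2), embM_apply (Fin.castSucc_injective 2),
      embM_id_apply]
    rfl
  · have h3 : ∀ i j : Fin 2, ¬ (Fin.castSucc i = p ∧ Fin.castSucc j = q) :=
      fun i j hh => hpq ⟨i, j, hh⟩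
    rw [embM_apply_zero _ _ _ p q h3, embM_apply_zero _ _ _ p q h3]

end H36.QX
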