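import Pool.Agent.H36.QX.ThtP
import Pool.Agent.H36.QX.SLocQ
import Pool.Agent.H16.QE.CornQI

/-!
# InstQ : `i : A → A⁺` is a quasi-isomorphism on Hochschild complexes
-/

set_option autoImplicit false

open NC

noncomputable section

namespace H36.QX

open H36.NX

variable {k : Type} [Field k] {t : k} {R : Type} [CommRing R] [Algebra k R]
  {C : QRing k t R} {S : Type} [CommRing S] [Algebra k S] (L : SRing C S)
  {K : Type} [Field K] [Algebra k K]

/-- the big chart has the same sections and the same cohomology -/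
theorem SRing.pExt (E : QRoot k t K) : PExt C.psy L.psy L.ι where
  inj := L.inj
  X _ _ := Iff.rfl
  Y _ _ := ⟨fun h => L.of_ι_mem_Y E h, fun h => L.ι_mem_Y h⟩
  YR n x := by
    obtain ⟨r, hr⟩ := L.exists_sub_mem_Y E n x
    exact ⟨r, x - L.ι r, hr, by rw [add_sub_cancel]⟩

/-- the sections `x` and `y` of `O(1)` -/
def SRing.pUn : PUn L.psy where
  u := L.ι (C.u : R)
  ui := L.ι ((C.u⁻¹ : Rˣ) : R)
  ui_u := by rw [← map_mul, Units.inv_mul, map_one]
  oneX n := L.one_mem_X
  uX := L.ι_mem_pc Pc.X 1 (C.u_mem_X)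
  oneY := by
    have h := L.ι_mem_pc Pc.Y 1 (C.one_mem_pc Pc.Y (n := 1) (by norm_num))
    rwa [map_one] at h
  uY := L.ι_mem_pc Pc.Y 1 (C.u_mem_pc Pc.Y le_rfl)
  uiY := L.ι_mem_pc Pc.Y (-1) (by
    have h := C.upow_mem_Y (m := -1) (n := -1) le_rfl
    rw [zpow_neg_one] at h
    exact h)

/-- `i : A → A⁺` is a quasi-isomorphism on Hochschild complexes -/
theorem hcA_iA_QI (E : QRoot k t K) : (hcA (iA L)).QI :=
  hcA_emb_QI (L.pExt E) L.pUn (rzA C) (rzP L) (embOK_ι L) (by simp [wtp]) (by simp [wtp])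
    (by simp [wtp]) (by simp [wt]) (by simp [wt])

end H36.QX
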