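import Pool.Agent.H16.QE.CnB
import Pool.Agent.H16.QE.InstQ

/-!
# CnQ : the diagonal bimodule is quasi-isomorphic to the corner `i(1) A⁺ i(1)`
-/

set_option autoImplicit false
set_option linter.unusedSectionVars false

open NC

noncomputable section

namespace H36.QX

open H36.NX

variable {k : Type} [Field k] {R S : Type} [CommRing R] [Algebra k R] [CommRing S] [Algebra k S]
  {I I' : Type} [Fintype I] [DecidableEq I] [Fintype I'] [DecidableEq I']

section

variable {P : PSy k R} {α : I → ℤ} {P' : PSy k S} {α' : I' → ℤ} {A B : DGA k} (z : Rz A P α)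
  (z' : Rz B P' α') {e : I → I'} (he : Function.Injective e) {φ : R →ₐ[k] S}
  (h : EmbOK P α P' α' e φ)

theorem embM_one_id (φ : R →ₐ[k] S) : embM (id : I → I) φ (1 : Matrix I I R) = 1 := by
  ext i j
  rw [embM_id_apply, Matrix.one_apply, Matrix.one_apply]
  split
  · exact map_one φ
  · exact map_zero φ

theorem embP_one_id (φ : R →ₐ[k] S) :
    embP (id : I → I) φ (cOne (Matrix I I R)) = cOne (Matrix I I S) := by
  funext s
  cases s with
  | X => exact embM_one_id φ
  | Y => exact embM_one_id φ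
  | R => exact map_zero (embM (id : I → I) φ)

theorem emb_factor (hE : PExt P P' φ) (hcs : ∀ i, α' (e i) = α i) (a : A.V) :
    (embH (CA.rz P' α) z' he (embOK_id hcs)).f
      ((embH z (CA.rz P' α) (Function.injective_id (α := I)) (hE.ok α)).f a)
      = (embH z z' he h).f a := by
  apply z'.inj
  rw [v_embH, v_embH, v_embH]
  funext s
  ext p q
  rw [embP_apply, embP_apply, embP_apply]
  by_cases hpq : ∃ i j : I, e i = p ∧ e j = q
  · obtain ⟨i, j, rfl, rfl⟩ := hpq
    rw [embM_apply he, embM_apply he, embM_id_apply]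
    rfl
  · have h3 : ∀ i j : I, ¬ (e i = p ∧ e j = q) := fun i j hh => hpq ⟨i, j, hh⟩
    rw [embM_apply_zero _ _ _ p q h3, embM_apply_zero _ _ _ p q h3]

/-- the diagonal is quasi-isomorphic to the corner -/
theorem cnQ_QI (hE : PExt P P' φ) (hcs : ∀ i, α' (e i) = α i) :
    (cnQ (embH z z' he h)).toHom.QI := by
  obtain ⟨g, hg⟩ : ∃ g : DGA.NHom A B, g = embH z z' he h := ⟨_, rfl⟩
  obtain ⟨q, hq⟩ : ∃ q : DGA.NHom A (CA P' α),
    q = embH z (CA.rz P' α) (Function.injective_id (α := I)) (hE.ok α) := ⟨_, rfl⟩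
  obtain ⟨c, hc⟩ : ∃ c : DGA.NHom (CA P' α) B,
    c = embH (CA.rz P' α) z' he (embOK_id hcs) := ⟨_, rfl⟩
  have hfac : ∀ a, c.f (q.f a) = g.f a := by
    rw [hc, hq, hg]; exact emb_factor z z' he h hE hcs
  have hqQ : q.toHom.QI := by rw [hq]; exact embH_QI z (CA.rz P' α) (hE.ok α) hE
  have hq1 : q.f 1 = 1 := by
    rw [hq]
    apply (CA.rz P' α).inj
    rw [v_embH, z.v_one, (CA.rz P' α).v_one]
    exact embP_one_id φ
  have hg1 : g.f 1 = c.f 1 := by rw [← hfac, hq1]
  have hci : Function.Injective c.f := by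
    rw [hc]
    exact embH_injective _ _ _ _ (fun a b hab => hab)
  have hcs' : ∀ f : B.V, c.f 1 * f = f → f * c.f 1 = f → ∃ a, c.f a = f := by
    rw [hc]
    exact fun f h1 h2 => corner_surj (CA.rz P' α) z' he (embOK_id hcs) hcs f h1 h2
      (CA.rz P' α).v_one
  rw [← hg]
  have hmem : ∀ y, c.f y ∈ cnU g g := by
    intro y
    refine (mem_cnU g g).2 ⟨?_, ?_⟩
    · rw [hg1, ← c.mul, one_mul]
    · rw [hg1, ← c.mul, mul_one]
  constructor
  · intro x y hx hxy
    obtain ⟨h1, h2⟩ := (mem_cnU g g).1 y.2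
    obtain ⟨y', hy'⟩ := hcs' y.1 (by rw [← hg1]; exact h1) (by rw [← hg1]; exact h2)
    refine hqQ.inj x y' hx (hci ?_)
    have h3 : g.f x = B.D y.1 := congrArg Subtype.val hxy
    rw [hfac, h3, c.D, hy']
  · intro y hy
    obtain ⟨h1, h2⟩ := (mem_cnU g g).1 y.2
    obtain ⟨y', hy'⟩ := hcs' y.1 (by rw [← hg1]; exact h1) (by rw [← hg1]; exact h2)
    have h3 : B.D y.1 = 0 := congrArg Subtype.val hy
    have h4 : (CA P' α).D y' = 0 := hci (by rw [c.D, hy', h3, map_zero])
    obtain ⟨x, w, hx, hw⟩ := hqQ.surj y' h4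
    refine ⟨x, ⟨c.f w, hmem w⟩, hx, Subtype.ext ?_⟩
    change y.1 = g.f x + B.D (c.f w)
    rw [← hy', hw, map_add, hfac, c.D]

end

variable {t : k} {C : QRing k t R} (L : SRing C S) {K : Type} [Field K] [Algebra k K]

/-- the corner `i(1) A⁺ i(1)` -/
def Th0 : BMod (AA C) (AA C) := cnB (iA L) (iA L)

/-- the quasi-isomorphism from the diagonal -/
def qTh : BMod.Hom (BMod.diag (AA C)) (Th0 L) := cnQ (iA L)

theorem qTh_QI (E : QRoot k t K) : (qTh L).toHom.QI :=
  cnQ_QI (rzA C) (rzP L) (Fin.castSucc_injective 2) (embOK_ι L) (L.pExt E)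
    (fun i => by simp [wtp, wt])

/-- the corner `h(1) A⁺ i(1)` -/
def Th [CharP k 2] : BMod (AA C) (AA C) := cnB (hA L) (iA L)

end H36.QX
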