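import Pool.Agent.H94.NC.MorC

/-!
# Corn3 : Morita invariance for a corner with three generators of the complement
-/

set_option autoImplicit false

noncomputable section

namespace NC

variable {k : Type} [Field k]

/-- Morita invariance for a corner with finite data of length three. -/
theorem hcA_QI_of_corner3 {C E : DGA k} (i : DGA.NHom C E) (hi : Function.Injective i.f)
    (hc : ∀ f : E.V, i.f 1 * f = f → f * i.f 1 = f → ∃ a, i.f a = f)
    (m₁ m₂ m₃ x₁ x₂ : E.V) (a b : C.V)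
    (h1 : m₁ * i.f 1 = m₁) (h2 : m₂ * i.f 1 = m₂) (h3 : m₃ * i.f 1 = m₃)
    (h4 : i.f 1 * x₁ = x₁) (h5 : i.f 1 * x₂ = x₂)
    (e1 : E.E m₁ = m₁) (e2 : E.E m₂ = m₂) (e3 : E.E m₃ = -m₃) (ea : C.E a = a) (eb : C.E b = b)
    (d1 : E.D m₁ = m₃ * i.f a) (d2 : E.D m₂ = m₃ * i.f b) (d3 : E.D m₃ = 0)
    (d4 : E.D x₁ = 0) (d5 : E.D x₂ = 0) (da : C.D a = 0) (db : C.D b = 0)
    (hab : i.f a * x₁ + i.f b * x₂ = 0)
    (sum : i.f 1 + (m₁ * x₁ + m₂ * x₂) = 1) : (hcA i).QI := by
  refine hcA_QI_of_corner i hi hc (n := 3) ![m₁, m₂, m₃] ![x₁, x₂, 0]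
    ![![0, 0, 0], ![0, 0, 0], ![a, b, 0]] 0 ![1, 1, -1] ![1, 1, 0] ?_ ?_ ?_ ?_ ?_ ?_ ?_ ?_ ?_ ?_
  · intro j
    fin_cases j
    · exact h1
    · exact h2
    · exact h3
  · intro j
    fin_cases j
    · exact h4
    · exact h5
    · exact mul_zero _
  · intro j
    fin_cases j
    · exact mul_one 1
    · exact mul_one 1
    · simp
  · intro j
    fin_cases j
    · exact e1.trans (one_smul k m₁).symm
    · exact e2.trans (one_smul k m₂).symm
    · exact e3.trans (neg_one_smul k m₃).symm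
  · intro p q
    fin_cases p <;> fin_cases q <;> simp [ea, eb]
  · intro p q
    fin_cases p <;> fin_cases q <;> simp
  · intro j
    fin_cases j
    · simp [Fin.sum_univ_three, d1]
    · simp [Fin.sum_univ_three, d2]
    · simp [Fin.sum_univ_three, d3]
  · intro j
    fin_cases j
    · simp [Fin.sum_univ_three, d4]
    · simp [Fin.sum_univ_three, d5]
    · simp [Fin.sum_univ_three, hab]
  · intro p q
    fin_cases p <;> fin_cases q <;> simp [Fin.sum_univ_three, da, db]
  · rw [map_zero, add_zero, Fin.sum_univ_three]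
    simpa using sum

end NC
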