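import Pool.Agent.H36.NX.RP
import Pool.Agent.H36.NX.Push
import Pool.Agent.H36.QX.HomsF

/-!
# PFRow : the right modules `P n` and `P 0 ⊕ P (-2)` are perfect
-/

set_option autoImplicit false

open NC

noncomputable section

namespace H36.QX

open H36.NX
variable {k : Type} [Field k] {t : k} {R : Type} [CommRing R] [Algebra k R]
  {K : Type} [Field K] [Algebra k K]

/-- `A ⊗ P n` -/
def rP (C : QRing k t R) (n : ℤ) : BMod (AA C) (AA C) :=
  BMod.tR (qRA C (fun _ : Unit => (0 : ℤ)) n) (qRA_one C _ n)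

/-- `A ⊗ K^2` -/
def rK (C : QRing k t R) (E : QRoot k t K) : BMod (AA C) (AA C) :=
  BMod.tR (kRA C E Unit) (fun y => kMul_one_aVal C E y)

/-- `A ⊗ P n → A ⊗ P (n + 1)` -/
def rPx (C : QRing k t R) (n : ℤ) : BMod.Hom (rP C n) (rP C (n + 1)) :=
  BMod.tRmap (qRA_one C _ n) (qRA_one C _ (n + 1)) (qInH C (pr_le' n)) (qInH_right C (pr_le' n))

/-- `A ⊗ P n → A ⊗ K^2` -/
def rPv (C : QRing k t R) (E : QRoot k t K) (n : ℤ) : BMod.Hom (rP C n) (rK C E) :=
  BMod.tRmap (qRA_one C _ n) (fun y => kMul_one_aVal C E y)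
    (valH C E (fun _ : Unit => (0 : ℤ)) (wtn n)) (valH_right C E _ n)

theorem ses_rP (C : QRing k t R) (E : QRoot k t K) (n : ℤ) :
    SD.SES (rPx C n).toHom (rPv C E (n + 1)).toHom :=
  ses_tensL (ses_P C E n) (AA C).toSD

theorem PF_rP_base (C : QRing k t R) (n : Fin 2) : PF (AA C) (rP C (-wt n)) := by
  have hF : PF (AA C) (BMod.tR (A := AA C) (AA C).diag.r (fun x => mul_one (M := (AA C).V) x)) :=
    PF.free
  refine PF.ret (BMod.tRmap (qRA_one C _ (-wt n)) (fun x => mul_one (M := (AA C).V) x)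
    (rPutH C n) (rPutH_right C n))
    (BMod.tRmap (fun x => mul_one (M := (AA C).V) x) (qRA_one C _ (-wt n)) (rGetH C n)
      (rGetH_right C n)) (fun v => ?_) hF
  refine tens_ext (f := (BMod.tRmap (fun x => mul_one (M := (AA C).V) x) (qRA_one C _ (-wt n))
    (rGetH C n) (rGetH_right C n)).f ∘ₗ (BMod.tRmap (qRA_one C _ (-wt n))
    (fun x => mul_one (M := (AA C).V) x) (rPutH C n) (rPutH_right C n)).f) (g := LinearMap.id)
    (fun x y => ?_) v
  change x ⊗ₜ[k] (rGetH C n).f ((rPutH C n).f y) = x ⊗ₜ[k] y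
  rw [rGet_rPut]

theorem PF_rK (C : QRing k t R) (E : QRoot k t K) : PF (AA C) (rK C E) := by
  have h0 : PF (AA C) (rP C (-1 + 1)) := by
    have h := PF_rP_base C 0
    have e : -wt (0 : Fin 2) = -1 + 1 := by simp [wt]
    rwa [e] at h
  have h1 : PF (AA C) (rP C (-1)) := by
    have h := PF_rP_base C 1
    have e : -wt (1 : Fin 2) = -1 := by simp [wt]
    rwa [e] at h
  exact PF.ses1 (rPx C (-1)) (rPv C E (-1 + 1)) (ses_rP C E (-1)) h1 h0

/-- all `P n` are perfect -/
theorem PF_rP (C : QRing k t R) (E : QRoot k t K) (n : ℤ) : PF (AA C) (rP C n) := by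
  have hK := PF_rK C E
  have up : ∀ i : ℤ, PF (AA C) (rP C i) → PF (AA C) (rP C (i + 1)) := fun i hi =>
    PF.ses2 (rPx C i) (rPv C E (i + 1)) (ses_rP C E i) hi hK
  have dn : ∀ i : ℤ, PF (AA C) (rP C (i + 1)) → PF (AA C) (rP C i) := fun i hi =>
    PF.ses3 (rPx C i) (rPv C E (i + 1)) (ses_rP C E i) hi hK
  induction n using Int.induction_on with
  | zero =>
    have h := PF_rP_base C 0
    have e : -wt (0 : Fin 2) = 0 := by simp [wt]
    rwa [e] at h
  | succ i ih => exact up _ ih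
  | pred i ih =>
    refine dn _ ?_
    have e : -(i : ℤ) - 1 + 1 = -(i : ℤ) := by ring
    rw [e]
    exact ih

/-! ### two rows -/

/-- the weights `0`, `2` -/
def w02 (i : Fin 2) : ℤ := 2 * ((i : ℕ) : ℤ)

/-- the two rows `P 0 ⊕ P (-2)` -/
abbrev M02 (C : QRing k t R) : SD k := qSD C w02 (wtn 0)

/-- the first row -/
def rowPut0 (C : QRing k t R) : SD.Hom (Pr C 0) (M02 C) where
  f :=
    { toFun := fun f => qmk C w02 (wtn 0)
        (rowPut R 0 (qv C (fun _ : Unit => (0 : ℤ)) (wtn 0) f)) (by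
          intro s i j
          rw [rowPut_apply]
          split_ifs with h
          · subst h
            have h1 := qv_mem C f s () j
            rwa [show wtn 0 j - 0 = wtn 0 j - w02 0 by simp [w02]] at h1
          · exact Submodule.zero_mem _)
      map_add' := fun f f' => q_ext C (by
        rw [map_add (qv C w02 (wtn 0)), qv_qmk, qv_qmk, qv_qmk,
          map_add (qv C (fun _ : Unit => (0 : ℤ)) (wtn 0)), rowPut_add])
      map_smul' := fun c f => q_ext C (by
        rw [map_smul (qv C w02 (wtn 0)), qv_qmk, qv_qmk,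
          map_smul (qv C (fun _ : Unit => (0 : ℤ)) (wtn 0)), rowPut_smul, RingHom.id_apply]) }
  D v := q_ext C (by
    rw [qv_D]
    change rowPut R 0 (qv C (fun _ : Unit => (0 : ℤ)) (wtn 0) ((Pr C 0).D v))
      = cD k _ (rowPut R 0 (qv C (fun _ : Unit => (0 : ℤ)) (wtn 0) v))
    rw [qv_D, rowPut_D])
  P v := q_ext C (by
    rw [qv_P]
    change rowPut R 0 (qv C (fun _ : Unit => (0 : ℤ)) (wtn 0) ((Pr C 0).P v))
      = cP k _ (rowPut R 0 (qv C (fun _ : Unit => (0 : ℤ)) (wtn 0) v))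
    rw [qv_P, rowPut_P])

theorem qv_rowPut0 (C : QRing k t R) (f : (Pr C 0).V) : qv C w02 (wtn 0) ((rowPut0 C).f f)
    = rowPut R 0 (qv C (fun _ : Unit => (0 : ℤ)) (wtn 0) f) := rfl

/-- the second row -/
def rowGet1 (C : QRing k t R) : SD.Hom (M02 C) (Pr C (-2)) where
  f :=
    { toFun := fun f => qmk C (fun _ : Unit => (0 : ℤ)) (wtn (-2))
        (rowGet R 1 (qv C w02 (wtn 0) f)) (by
          intro s i j
          have h1 := qv_mem C f s 1 j
          rwa [show wtn 0 j - w02 1 = wtn (-2) j - 0 by simp [w02, wtn]; ring] at h1)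
      map_add' := fun f f' => q_ext C (by
        rw [map_add (qv C (fun _ : Unit => (0 : ℤ)) (wtn (-2))), qv_qmk, qv_qmk, qv_qmk,
          map_add (qv C w02 (wtn 0))]
        rfl)
      map_smul' := fun c f => q_ext C (by
        rw [map_smul (qv C (fun _ : Unit => (0 : ℤ)) (wtn (-2))), qv_qmk, qv_qmk,
          map_smul (qv C w02 (wtn 0)), RingHom.id_apply]
        rfl) }
  D v := q_ext C (by
    rw [qv_D]
    change rowGet R 1 (qv C w02 (wtn 0) ((M02 C).D v)) = cD k _ (rowGet R 1 (qv C w02 (wtn 0) v))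
    rw [qv_D, rowGet_D])
  P v := q_ext C (by
    rw [qv_P]
    change rowGet R 1 (qv C w02 (wtn 0) ((M02 C).P v)) = cP k _ (rowGet R 1 (qv C w02 (wtn 0) v))
    rw [qv_P, rowGet_P])

theorem qv_rowGet1 (C : QRing k t R) (f : (M02 C).V) :
    qv C (fun _ : Unit => (0 : ℤ)) (wtn (-2)) ((rowGet1 C).f f)
      = rowGet R 1 (qv C w02 (wtn 0) f) := rfl

theorem rowPut0_right (C : QRing k t R) :
    (qRA C (fun _ : Unit => (0 : ℤ)) 0).IsHom (qRA C w02 0) (rowPut0 C) := by
  intro v a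
  refine q_ext C ?_
  change rowPut R 0 (qv C (fun _ : Unit => (0 : ℤ)) (wtn 0)
      (qMulR C (fun _ : Unit => (0 : ℤ)) 0 v a))
    = cMul k (matMul k R (Fin 2) (Fin 2) (Fin 2))
        (rowPut R 0 (qv C (fun _ : Unit => (0 : ℤ)) (wtn 0) v)) (av C a)
  rw [qv_qMulR, rowPut_cMul]

theorem rowGet1_right (C : QRing k t R) :
    (qRA C w02 0).IsHom (qRA C (fun _ : Unit => (0 : ℤ)) (-2)) (rowGet1 C) := by
  intro v a
  refine q_ext C ?_
  change rowGet R 1 (cMul k (matMul k R (Fin 2) (Fin 2) (Fin 2)) (qv C w02 (wtn 0) v) (av C a))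
    = cMul k (matMul k R Unit (Fin 2) (Fin 2)) (rowGet R 1 (qv C w02 (wtn 0) v)) (av C a)
  rw [rowGet_cMul]

theorem ses_rows (C : QRing k t R) : SD.SES (rowPut0 C) (rowGet1 C) where
  inj x hx := by
    refine q_ext C ?_
    have h := congrArg (qv C w02 (wtn 0)) hx
    rw [qv_rowPut0, map_zero] at h
    rw [map_zero]
    funext s i j
    have h1 := congrFun (congrFun (congrFun h s) 0) j
    rw [rowPut_apply, if_pos rfl] at h1
    exact h1
  surj y := by
    refine ⟨qmk C w02 (wtn 0) (rowPut R 1 (qv C (fun _ : Unit => (0 : ℤ)) (wtn (-2)) y)) ?_,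
      q_ext C ?_⟩
    · intro s i j
      rw [rowPut_apply]
      split_ifs with h
      · subst h
        have h1 := qv_mem C y s () j
        rwa [show wtn (-2) j - 0 = wtn 0 j - w02 1 by simp [w02, wtn]; ring] at h1
      · exact Submodule.zero_mem _
    · rw [qv_rowGet1, qv_qmk, rowGet_rowPut]
  zero x := by
    refine q_ext C ?_
    rw [qv_rowGet1, qv_rowPut0, map_zero]
    funext s i j
    rw [rowGet_apply, rowPut_apply, if_neg (by decide)]
    rfl
  exact y hy := by
    have h := congrArg (qv C (fun _ : Unit => (0 : ℤ)) (wtn (-2))) hy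
    rw [qv_rowGet1, map_zero] at h
    refine ⟨qmk C (fun _ : Unit => (0 : ℤ)) (wtn 0) (rowGet R 0 (qv C w02 (wtn 0) y)) ?_,
      q_ext C ?_⟩
    · intro s i j
      have h1 := qv_mem C y s 0 j
      rwa [show wtn 0 j - w02 0 = wtn 0 j - 0 by simp [w02]] at h1
    · rw [qv_rowPut0, qv_qmk]
      funext s i j
      rw [rowPut_apply]
      split_ifs with hi
      · subst hi
        rfl
      · have hi1 : i = 1 := by
          fin_cases i
          · exact absurd rfl hi
          · rfl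
        subst hi1
        have h1 := congrFun (congrFun (congrFun h s) ()) j
        rw [rowGet_apply] at h1
        exact h1.symm

/-- `A ⊗ (P 0 ⊕ P (-2))` -/
def rM (C : QRing k t R) : BMod (AA C) (AA C) :=
  BMod.tR (qRA C w02 0) (qRA_one C w02 0)

theorem PF_rM (C : QRing k t R) (E : QRoot k t K) : PF (AA C) (rM C) := by
  have h : SD.SES (BMod.tRmap (qRA_one C _ 0) (qRA_one C w02 0) (rowPut0 C)
      (rowPut0_right C)).toHom (BMod.tRmap (qRA_one C w02 0) (qRA_one C _ (-2)) (rowGet1 C)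
      (rowGet1_right C)).toHom := ses_tensL (ses_rows C) (AA C).toSD
  exact PF.ses2 _ _ h (PF_rP C E 0) (PF_rP C E (-2))

end H36.QX
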