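import Pool.Agent.H16.QE.CnQ
import Pool.Agent.H16.QE.PFRow
import Pool.Agent.H9.NC.Lin

/-!
# PFTh : the right module of the corner `h(1) A⁺ i(1)` is perfect
-/

set_option autoImplicit false
set_option linter.unusedSectionVars false

open NC

noncomputable section

namespace H36.QX

open H36.NX

/-! ### rectangular embeddings -/

section rect

variable {k : Type} [Field k] {R S : Type} [CommRing R] [Algebra k R] [CommRing S] [Algebra k S]
  {I J I' : Type} [Fintype I] [DecidableEq I] [Fintype J] [DecidableEq J] [Fintype I']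
  [DecidableEq I']

/-- the embedding of rectangular matrices -/
def embR (e : I → I') (e' : J → I') (φ : R →ₐ[k] S) : Matrix I J R →ₗ[k] Matrix I' I' S where
  toFun M := selM S e * M.map φ * (selM S e').transpose
  map_add' M N := by
    rw [show (M + N).map φ = M.map φ + N.map φ from Matrix.ext fun i j => map_add φ _ _,
      Matrix.mul_add, Matrix.add_mul]
  map_smul' c M := by
    rw [show (c • M).map φ = c • M.map φ from Matrix.ext fun i j => map_smul φ c _,
      Matrix.mul_smul, Matrix.smul_mul, RingHom.id_apply]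

variable (e : I → I') (e' : J → I') (φ : R →ₐ[k] S)

theorem embR_def (M : Matrix I J R) :
    embR e e' φ M = selM S e * M.map φ * (selM S e').transpose := rfl

theorem embR_apply' (M : Matrix I J R) (p q : I') :
    embR e e' φ M p q = ∑ j, ∑ i, if e i = p ∧ e' j = q then φ (M i j) else 0 := by
  rw [embR_def, Matrix.mul_apply]
  refine Finset.sum_congr rfl fun j _ => ?_
  rw [selM_mul_apply, Finset.sum_mul]
  refine Finset.sum_congr rfl fun i _ => ?_
  simp only [selM, Matrix.transpose_apply, Matrix.of_apply, Matrix.map_apply]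
  by_cases h1 : e i = p <;> by_cases h2 : e' j = q <;> simp [h1, h2]

theorem embR_apply (he : Function.Injective e) (he' : Function.Injective e')
    (M : Matrix I J R) (i : I) (j : J) : embR e e' φ M (e i) (e' j) = φ (M i j) := by
  rw [embR_apply', Finset.sum_eq_single j, Finset.sum_eq_single i]
  · simp
  · intro b _ hb
    rw [if_neg]
    rintro ⟨h, _⟩
    exact hb (he h)
  · intro h; exact absurd (Finset.mem_univ _) h
  · intro b _ hb
    refine Finset.sum_eq_zero fun a _ => ?_
    rw [if_neg]
    rintro ⟨_, h⟩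
    exact hb (he' h)
  · intro h; exact absurd (Finset.mem_univ _) h

theorem embR_apply_zero (M : Matrix I J R) (p q : I')
    (h : ∀ i j, ¬ (e i = p ∧ e' j = q)) : embR e e' φ M p q = 0 := by
  rw [embR_apply']
  refine Finset.sum_eq_zero fun j _ => Finset.sum_eq_zero fun i _ => ?_
  rw [if_neg (h i j)]

theorem embR_mul (he' : Function.Injective e') (M : Matrix I J R) (N : Matrix J J R) :
    embR e e' φ (M * N) = embR e e' φ M * embM e' φ N := by
  have h1 : (M * N).map φ = M.map φ * N.map φ := by
    ext i j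
    simp only [Matrix.map_apply, Matrix.mul_apply, map_sum, map_mul]
  rw [embR_def, embR_def, embM_def, h1]
  calc selM S e * (M.map φ * N.map φ) * (selM S e').transpose
      = selM S e * M.map φ * (1 : Matrix J J S) * N.map φ * (selM S e').transpose := by
        rw [Matrix.mul_one]; simp only [Matrix.mul_assoc]
    _ = _ := by rw [← selM_selM (S' := S) he']; simp only [Matrix.mul_assoc]

theorem embR_one (he' : Function.Injective e') (M : Matrix I J R) :
    embR e e' φ M * embM e' φ 1 = embR e e' φ M := by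
  rw [← embR_mul e e' φ he', Matrix.mul_one]

theorem one_embR {R₁ : Type} [CommRing R₁] [Algebra k R₁] (ψ : R₁ →ₐ[k] S)
    (he : Function.Injective e) (M : Matrix I J R) :
    embM e ψ 1 * embR e e' φ M = embR e e' φ M := by
  rw [embM_one, embR_def]
  calc selM S e * (selM S e).transpose * (selM S e * M.map φ * (selM S e').transpose)
      = selM S e * ((selM S e).transpose * selM S e) * M.map φ * (selM S e').transpose := by
        simp only [Matrix.mul_assoc]
    _ = _ := by rw [selM_selM he, Matrix.mul_one]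

/-- the embedding of rectangular Čech matrices -/
def embRP : (Pc → Matrix I J R) →ₗ[k] (Pc → Matrix I' I' S) where
  toFun f := fun s => embR e e' φ (f s)
  map_add' f g := by funext s; simp
  map_smul' r f := by funext s; simp

@[simp] theorem embRP_apply (f : Pc → Matrix I J R) (s : Pc) :
    embRP e e' φ f s = embR e e' φ (f s) := rfl

theorem embRP_D (f : Pc → Matrix I J R) :
    embRP e e' φ (cD k _ f) = cD k _ (embRP e e' φ f) := by
  funext s
  cases s
  · change embR e e' φ 0 = 0
    rw [map_zero]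
  · change embR e e' φ 0 = 0
    rw [map_zero]
  · change embR e e' φ (f Pc.Y - f Pc.X) = embR e e' φ (f Pc.Y) - embR e e' φ (f Pc.X)
    rw [map_sub]

theorem embRP_P (f : Pc → Matrix I J R) :
    embRP e e' φ (cP k _ f) = cP k _ (embRP e e' φ f) := by
  funext s
  cases s
  · rfl
  · rfl
  · change embR e e' φ 0 = 0
    rw [map_zero]

theorem embRP_mul (he' : Function.Injective e') (f : Pc → Matrix I J R)
    (g : Pc → Matrix J J R) : embRP e e' φ (cMul k (matMul k R I J J) f g) =
      cMul k (LinearMap.mul k _) (embRP e e' φ f) (embP e' φ g) := by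
  funext s
  cases s
  · exact embR_mul e e' φ he' _ _
  · exact embR_mul e e' φ he' _ _
  · change embR e e' φ (f Pc.X * g Pc.R + f Pc.R * g Pc.Y)
      = embR e e' φ (f Pc.X) * embM e' φ (g Pc.R) + embR e e' φ (f Pc.R) * embM e' φ (g Pc.Y)
    rw [map_add, embR_mul e e' φ he', embR_mul e e' φ he']

end rect

section

variable {k : Type} [Field k] {t : k} {R : Type} [CommRing R] [Algebra k R]
  {C : QRing k t R} {S : Type} [CommRing S] [Algebra k S] (L : SRing C S)
  {K : Type} [Field K] [Algebra k K] [CharP k 2]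

theorem e02_val (i : Fin 2) : wtp (e02 i) = w02 i := by
  unfold wtp e02 w02
  push_cast
  ring

theorem embRP_mem (f : Pc → Matrix (Fin 2) (Fin 2) R) (hf : f ∈ QQ C w02 (wtn 0)) :
    embRP e02 (Fin.castSucc : Fin 2 → Fin 3) L.ι f ∈ L.psy.mats wtp := by
  intro s p q
  rw [embRP_apply]
  by_cases hpq : ∃ i j : Fin 2, e02 i = p ∧ Fin.castSucc j = q
  · obtain ⟨i, j, rfl, rfl⟩ := hpq
    rw [embR_apply _ _ _ e02_injective (Fin.castSucc_injective 2), e02_val]
    have h1 := L.ι_mem_pc s _ (hf s i j)
    have h2 : wtn 0 j - w02 i = wtp (Fin.castSucc j) - w02 i := by simp [wtn, wtp]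
    rw [h2] at h1
    exact h1
  · rw [embR_apply_zero _ _ _ _ p q (fun i j hh => hpq ⟨i, j, hh⟩)]
    exact Submodule.zero_mem _

/-- the element of `A⁺` -/
def mEl (f : (M02 C).V) : (AP L).V :=
  (rzP L).el (embRP e02 (Fin.castSucc : Fin 2 → Fin 3) L.ι (qv C w02 (wtn 0) f))
    (embRP_mem L _ (qv_mem C f))

theorem v_mEl (f : (M02 C).V) : (rzP L).v (mEl L f)
    = embRP e02 (Fin.castSucc : Fin 2 → Fin 3) L.ι (qv C w02 (wtn 0) f) :=
  (rzP L).v_el _ _

theorem mEl_mem (f : (M02 C).V) : mEl L f ∈ cnU (hA L) (iA L) := by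
  have h1 : (rzP L).v ((hA L).f 1) = embP e02 L.h (cOne _) := by
    rw [v_hA]; rfl
  have h2 : (rzP L).v ((iA L).f 1) = embP Fin.castSucc L.ι (cOne _) := by
    rw [v_iA]; rfl
  refine (mem_cnU _ _).2 ⟨(rzP L).inj ?_, (rzP L).inj ?_⟩
  · rw [(rzP L).mul, h1, v_mEl]
    funext s
    cases s with
    | X => exact one_embR e02 (Fin.castSucc : Fin 2 → Fin 3) L.ι L.h e02_injective _
    | Y => exact one_embR e02 (Fin.castSucc : Fin 2 → Fin 3) L.ι L.h e02_injective _
    | R =>
      change embM e02 L.h 1 * embR e02 Fin.castSucc L.ι (qv C w02 (wtn 0) f Pc.R)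
        + embM e02 L.h 0 * embR e02 Fin.castSucc L.ι (qv C w02 (wtn 0) f Pc.Y)
        = embR e02 Fin.castSucc L.ι (qv C w02 (wtn 0) f Pc.R)
      rw [one_embR _ _ _ L.h e02_injective, map_zero, zero_mul, add_zero]
  · rw [(rzP L).mul, h2, v_mEl]
    funext s
    cases s with
    | X => exact embR_one _ _ _ (Fin.castSucc_injective 2) _
    | Y => exact embR_one _ _ _ (Fin.castSucc_injective 2) _
    | R =>
      change embR e02 Fin.castSucc L.ι (qv C w02 (wtn 0) f Pc.X) * embM Fin.castSucc L.ι 0
        + embR e02 Fin.castSucc L.ι (qv C w02 (wtn 0) f Pc.R) * embM Fin.castSucc L.ι 1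
        = embR e02 Fin.castSucc L.ι (qv C w02 (wtn 0) f Pc.R)
      rw [embR_one _ _ _ (Fin.castSucc_injective 2), map_zero, mul_zero, zero_add]

/-- the map `P 0 ⊕ P (-2) → Θ` -/
def mTh : SD.Hom (M02 C) (Th L).N where
  f :=
    { toFun := fun f => ⟨mEl L f, mEl_mem L f⟩
      map_add' := fun f g => Subtype.ext ((rzP L).inj (by
        change (rzP L).v (mEl L (f + g)) = (rzP L).v (mEl L f + mEl L g)
        rw [map_add (rzP L).v, v_mEl, v_mEl, v_mEl, map_add (qv C w02 (wtn 0)), map_add]))
      map_smul' := fun c f => Subtype.ext ((rzP L).inj (by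
        change (rzP L).v (mEl L (c • f)) = (rzP L).v (c • mEl L f)
        rw [map_smul (rzP L).v, v_mEl, v_mEl, map_smul (qv C w02 (wtn 0)), map_smul])) }
  D := fun v => Subtype.ext ((rzP L).inj (by
    change (rzP L).v (mEl L ((M02 C).D v)) = (rzP L).v ((AP L).D (mEl L v))
    rw [(rzP L).D, v_mEl, v_mEl, qv_D, embRP_D]))
  P := fun v => Subtype.ext ((rzP L).inj (by
    change (rzP L).v (mEl L ((M02 C).P v)) = (rzP L).v ((AP L).P (mEl L v))
    rw [(rzP L).P, v_mEl, v_mEl, qv_P, embRP_P]))

theorem mTh_val (f : (M02 C).V) : (cnIo (hA L) (iA L)).f ((mTh L).f f) = mEl L f := rfl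

theorem mTh_right : (qRA C w02 0).IsHom (Th L).b.r (mTh L) := by
  intro v a
  refine Subtype.ext ((rzP L).inj ?_)
  change (rzP L).v (mEl L (qMulR C w02 0 v a)) = (rzP L).v (mEl L v * (iA L).f a)
  rw [(rzP L).mul, v_mEl, v_mEl, v_iA, qv_qMulR]
  exact embRP_mul _ _ _ (Fin.castSucc_injective 2) _ _

/-- elements of the corner are supported on the rows `0, 2` and the columns `0, 1` -/
theorem th_supp (y : (AP L).V) (hy : y ∈ cnU (hA L) (iA L)) (s : Pc) (p q : Fin 3)
    (h : ∀ i j : Fin 2, ¬ (e02 i = p ∧ Fin.castSucc j = q)) : (rzP L).v y s p q = 0 := by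
  obtain ⟨h1, h2⟩ := (mem_cnU _ _).1 hy
  have g1 : (rzP L).v ((hA L).f 1) = embP e02 L.h (cOne _) := by
    rw [v_hA]; rfl
  have g2 : (rzP L).v ((iA L).f 1) = embP Fin.castSucc L.ι (cOne _) := by
    rw [v_iA]; rfl
  have k1 := congrArg (rzP L).v h1
  have k2 := congrArg (rzP L).v h2
  rw [(rzP L).mul, g1] at k1
  rw [(rzP L).mul, g2] at k2
  have m1 : embM e02 L.h 1 * (rzP L).v y s = (rzP L).v y s := by
    have h3 := congrFun k1 s
    cases s with
    | X => exact h3
    | Y => exact h3
    | R =>
      have h4 : embM e02 L.h 1 * (rzP L).v y Pc.R + embM e02 L.h 0 * (rzP L).v y Pc.Y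
        = (rzP L).v y Pc.R := h3
      rwa [map_zero, zero_mul, add_zero] at h4
  have m2 : (rzP L).v y s * embM Fin.castSucc L.ι 1 = (rzP L).v y s := by
    have h3 := congrFun k2 s
    cases s with
    | X => exact h3
    | Y => exact h3
    | R =>
      have h4 : (rzP L).v y Pc.X * embM Fin.castSucc L.ι 0
        + (rzP L).v y Pc.R * embM Fin.castSucc L.ι 1 = (rzP L).v y Pc.R := h3
      rwa [map_zero, mul_zero, zero_add] at h4
  by_cases hp : ∃ i, e02 i = p
  · by_cases hq : ∃ j : Fin 2, Fin.castSucc j = q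
    · obtain ⟨i, hi⟩ := hp
      obtain ⟨j, hj⟩ := hq
      exact absurd ⟨hi, hj⟩ (h i j)
    · have e1 := congrFun (congrFun m2 p) q
      rw [← e1, Matrix.mul_apply]
      refine Finset.sum_eq_zero fun l _ => ?_
      rw [embM_apply_zero _ _ _ l q (fun i j hh => hq ⟨j, hh.2⟩), mul_zero]
  · have e1 := congrFun (congrFun m1 p) q
    rw [← e1, Matrix.mul_apply]
    refine Finset.sum_eq_zero fun l _ => ?_
    rw [embM_apply_zero _ _ _ p l (fun i j hh => hp ⟨i, hh.1⟩), zero_mul]

/-- the map `P 0 ⊕ P (-2) → Θ` is a quasi-isomorphism -/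
theorem mTh_QI (E : QRoot k t K) : (mTh L).QI := by
  have hE := L.pExt E
  have hw : ∀ i j : Fin 2, wtp (Fin.castSucc j) - wtp (e02 i) = wtn 0 j - w02 i := by
    intro i j
    rw [e02_val]
    simp [wtn, wtp]
  have hval : ∀ (f : (M02 C).V) (s : Pc) (i j : Fin 2),
      (rzP L).v (mEl L f) s (e02 i) (Fin.castSucc j) = L.ι (qv C w02 (wtn 0) f s i j) := by
    intro f s i j
    rw [v_mEl, embRP_apply, embR_apply _ _ _ e02_injective (Fin.castSucc_injective 2)]
  constructor
  · intro x y hx hxy
    have h1 : (rzP L).v (mEl L x) = cD k _ ((rzP L).v y.1) := by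
      rw [← (rzP L).D]
      exact congrArg (rzP L).v (congrArg Subtype.val hxy)
    have hXc : ∀ i j, qv C w02 (wtn 0) x Pc.X i j = 0 := by
      intro i j
      apply hE.inj
      rw [← hval, h1, map_zero]
      rfl
    have hYc : ∀ i j, qv C w02 (wtn 0) x Pc.Y i j = 0 := by
      intro i j
      apply hE.inj
      rw [← hval, h1, map_zero]
      rfl
    have hRc : ∀ i j, L.ι (qv C w02 (wtn 0) x Pc.R i j)
        = (rzP L).v y.1 Pc.Y (e02 i) (Fin.castSucc j)
          - (rzP L).v y.1 Pc.X (e02 i) (Fin.castSucc j) := by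
      intro i j
      rw [← hval, h1]
      rfl
    have hr : ∀ i j, ∃ r ∈ C.psy.pc Pc.X (wtn 0 j - w02 i),
        L.ι r = (rzP L).v y.1 Pc.X (e02 i) (Fin.castSucc j) := by
      intro i j
      have h3 := (rzP L).mem y.1 Pc.X (e02 i) (Fin.castSucc j)
      rw [hw] at h3
      exact (hE.X _ _).1 h3
    choose r hrm hre using hr
    have hYm : ∀ i j, r i j + qv C w02 (wtn 0) x Pc.R i j ∈ C.psy.pc Pc.Y (wtn 0 j - w02 i) := by
      intro i j
      rw [← hE.Y, map_add, hre, hRc, add_sub_cancel]
      have h3 := (rzP L).mem y.1 Pc.Y (e02 i) (Fin.castSucc j)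
      rwa [hw] at h3
    let f : Pc → Matrix (Fin 2) (Fin 2) R := fun s => match s with
      | Pc.X => Matrix.of r
      | Pc.Y => Matrix.of fun i j => r i j + qv C w02 (wtn 0) x Pc.R i j
      | Pc.R => 0
    have hf : f ∈ QQ C w02 (wtn 0) := by
      intro s i j
      cases s with
      | X => exact hrm i j
      | Y => exact hYm i j
      | R => exact Submodule.mem_top
    refine ⟨qmk C w02 (wtn 0) f hf, q_ext C ?_⟩
    rw [qv_D, qv_qmk]
    funext s i j
    cases s with
    | X => exact (hXc i j).symm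
    | Y => exact (hYc i j).symm
    | R =>
      change (r i j + qv C w02 (wtn 0) x Pc.R i j) - r i j = _
      rw [add_sub_cancel_left]
  · intro y hy
    have h1 : cD k _ ((rzP L).v y.1) = 0 := by
      rw [← (rzP L).D, show (AP L).D y.1 = 0 from congrArg Subtype.val hy, map_zero]
    have hXY : ∀ p q, (rzP L).v y.1 Pc.Y p q = (rzP L).v y.1 Pc.X p q := by
      intro p q
      have h2 : (rzP L).v y.1 Pc.Y p q - (rzP L).v y.1 Pc.X p q = 0 :=
        congrFun (congrFun (congrFun h1 Pc.R) p) q
      exact sub_eq_zero.1 h2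
    have hr : ∀ i j, ∃ r ∈ C.psy.pc Pc.X (wtn 0 j - w02 i),
        L.ι r = (rzP L).v y.1 Pc.X (e02 i) (Fin.castSucc j) := by
      intro i j
      have h3 := (rzP L).mem y.1 Pc.X (e02 i) (Fin.castSucc j)
      rw [hw] at h3
      exact (hE.X _ _).1 h3
    choose r hrm hre using hr
    have hrY : ∀ i j, r i j ∈ C.psy.pc Pc.Y (wtn 0 j - w02 i) := by
      intro i j
      rw [← hE.Y, hre, ← hXY]
      have h3 := (rzP L).mem y.1 Pc.Y (e02 i) (Fin.castSucc j)
      rwa [hw] at h3
    have hs : ∀ i j, ∃ q, ∃ w ∈ L.psy.pc Pc.Y (wtn 0 j - w02 i),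
        (rzP L).v y.1 Pc.R (e02 i) (Fin.castSucc j) = L.ι q + w := fun i j => hE.YR _ _
    choose q w hwm hqw using hs
    let f : Pc → Matrix (Fin 2) (Fin 2) R := fun s => match s with
      | Pc.X => Matrix.of r
      | Pc.Y => Matrix.of r
      | Pc.R => Matrix.of q
    have hf : f ∈ QQ C w02 (wtn 0) := by
      intro s i j
      cases s with
      | X => exact hrm i j
      | Y => exact hrY i j
      | R => exact Submodule.mem_top
    let g : Pc → Matrix (Fin 3) (Fin 3) S := fun s => match s with
      | Pc.X => 0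
      | Pc.Y => embR e02 Fin.castSucc (AlgHom.id k S) (Matrix.of w)
      | Pc.R => 0
    have hg : g ∈ L.psy.mats wtp := by
      intro s p q'
      cases s with
      | X => exact Submodule.zero_mem _
      | Y =>
        change embR e02 Fin.castSucc (AlgHom.id k S) (Matrix.of w) p q' ∈ _
        by_cases hpq : ∃ i j : Fin 2, e02 i = p ∧ Fin.castSucc j = q'
        · obtain ⟨i, j, rfl, rfl⟩ := hpq
          rw [embR_apply _ _ _ e02_injective (Fin.castSucc_injective 2), hw]
          exact hwm i j
        · rw [embR_apply_zero _ _ _ _ p q' (fun i j hh => hpq ⟨i, j, hh⟩)]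
          exact Submodule.zero_mem _
      | R => exact L.psy.mem_R _ _
    have hgm : (rzP L).el g hg ∈ cnU (hA L) (iA L) := by
      have g1 : (rzP L).v ((hA L).f 1) = embP e02 L.h (cOne _) := by
        rw [v_hA]; rfl
      have g2 : (rzP L).v ((iA L).f 1) = embP Fin.castSucc L.ι (cOne _) := by
        rw [v_iA]; rfl
      refine (mem_cnU _ _).2 ⟨(rzP L).inj ?_, (rzP L).inj ?_⟩
      · rw [(rzP L).mul, g1, (rzP L).v_el]
        funext s
        cases s with
        | X =>
          change embM e02 L.h 1 * 0 = 0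
          rw [mul_zero]
        | Y => exact one_embR _ _ _ L.h e02_injective _
        | R =>
          change embM e02 L.h 1 * 0 + embM e02 L.h 0 * g Pc.Y = 0
          rw [mul_zero, map_zero, zero_mul, add_zero]
      · rw [(rzP L).mul, g2, (rzP L).v_el]
        funext s
        cases s with
        | X =>
          change 0 * embM Fin.castSucc L.ι 1 = 0
          rw [zero_mul]
        | Y =>
          have h5 : embM (Fin.castSucc : Fin 2 → Fin 3) L.ι 1
              = embM Fin.castSucc (AlgHom.id k S) 1 := by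
            rw [embM_one, embM_one]
          change embR e02 Fin.castSucc (AlgHom.id k S) (Matrix.of w) * embM Fin.castSucc L.ι 1
            = embR e02 Fin.castSucc (AlgHom.id k S) (Matrix.of w)
          rw [h5]
          exact embR_one _ _ _ (Fin.castSucc_injective 2) _
        | R =>
          change (0 : Matrix (Fin 3) (Fin 3) S) * embM Fin.castSucc L.ι 0
            + 0 * embM Fin.castSucc L.ι 1 = 0
          rw [zero_mul, zero_mul, add_zero]
    refine ⟨qmk C w02 (wtn 0) f hf, ⟨(rzP L).el g hg, hgm⟩, q_ext C ?_,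
      Subtype.ext ((rzP L).inj ?_)⟩
    · rw [qv_D, qv_qmk, map_zero]
      funext s i j
      cases s with
      | X => rfl
      | Y => rfl
      | R =>
        change r i j - r i j = 0
        rw [sub_self]
    · change (rzP L).v y.1 = (rzP L).v (mEl L (qmk C w02 (wtn 0) f hf)
        + (AP L).D ((rzP L).el g hg))
      rw [map_add (rzP L).v, (rzP L).D, (rzP L).v_el, v_mEl, qv_qmk]
      funext s
      ext p q'
      rw [Pi.add_apply, Matrix.add_apply, embRP_apply]
      by_cases hpq : ∃ i j : Fin 2, e02 i = p ∧ Fin.castSucc j = q'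
      · obtain ⟨i, j, rfl, rfl⟩ := hpq
        rw [embR_apply _ _ _ e02_injective (Fin.castSucc_injective 2)]
        cases s with
        | X =>
          change _ = L.ι (r i j) + 0
          rw [add_zero, hre]
        | Y =>
          change _ = L.ι (r i j) + 0
          rw [add_zero, hre, hXY]
        | R =>
          change _ = L.ι (q i j)
            + (embR e02 Fin.castSucc (AlgHom.id k S) (Matrix.of w) (e02 i) (Fin.castSucc j) - 0)
          rw [embR_apply _ _ _ e02_injective (Fin.castSucc_injective 2), sub_zero, hqw]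
          rfl
      · have h3 : ∀ i j : Fin 2, ¬ (e02 i = p ∧ Fin.castSucc j = q') :=
          fun i j hh => hpq ⟨i, j, hh⟩
        rw [embR_apply_zero _ _ _ _ p q' h3, zero_add, th_supp L y.1 y.2 s p q' h3]
        cases s with
        | X => rfl
        | Y => rfl
        | R =>
          change 0 = embR e02 Fin.castSucc (AlgHom.id k S) (Matrix.of w) p q' - 0
          rw [embR_apply_zero _ _ _ _ p q' h3, sub_zero]

/-- the right module of `Θ` is perfect -/
theorem PF_tR_Th (E : QRoot k t K) : PF (AA C) (BMod.tR (Th L).b.r (Th L).r_one) :=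
  PF.qi (BMod.tRmap (qRA_one C w02 0) (Th L).r_one (mTh L) (mTh_right L))
    ((mTh_QI L E).tensR (AA C).toSD) (PF_rM C E)

end

end H36.QX
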