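import Pool.Agent.H36.NX.RPB

/-!
# PFbar : `Bar (N, A, M)` is perfect when `N` is and `A ⊗ M` (with the right module `M`) is
-/

set_option autoImplicit false

open scoped TensorProduct

namespace NC

variable {k : Type} [Field k] {A : DGA k}

/-- `PF_bar` with the weaker hypothesis on the right factor -/
theorem PF_bar' {N : BMod A A} (hN : PF A N) (M : BMod A A)
    (hM : PF A (BMod.tR M.b.r M.r_one)) : PF A (BMod.bar N M) := by
  induction hN with
  | free =>
    exact PF.qi' (X := BMod.bar (BMod.free A A) M) (Y := BMod.tR M.b.r M.r_one)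
      { toHom := augVL A.toSD M.b.l
        isHom := augVL_isHom A.diag.l M.b } (qi_augVL A.toSD M.b.l M.one_l) hM
  | @sh X _ ih =>
    exact PF.qi' (X := BMod.bar X.sh M) (Y := (BMod.bar X M).sh)
      { toHom := barShL X.b.r M.b.l
        isHom := barShL_isHom X.b M.b } (qi_barShL X.b.r M.b.l) ih.sh
  | qi f hf _ ih =>
    exact PF.qi (BMod.barL f M) (qi_bar f.isHom.r (LA.isHom_id M.b.l) hf (SD.Hom.QI.id M.N)) ih
  | qi' f hf _ ih =>
    exact PF.qi' (BMod.barL f M) (qi_bar f.isHom.r (LA.isHom_id M.b.l) hf (SD.Hom.QI.id M.N)) ih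
  | ses1 f g h _ _ ih' ih =>
    exact PF.ses1 (BMod.barL f M) (BMod.barL g M) (ses_bar_left h f.isHom.r g.isHom.r M.b.l) ih' ih
  | ses2 f g h _ _ ih' ih'' =>
    exact PF.ses2 (BMod.barL f M) (BMod.barL g M) (ses_bar_left h f.isHom.r g.isHom.r M.b.l) ih' ih''
  | ses3 f g h _ _ ih ih'' =>
    exact PF.ses3 (BMod.barL f M) (BMod.barL g M) (ses_bar_left h f.isHom.r g.isHom.r M.b.l) ih ih''
  | retr h _ ih =>
    obtain ⟨H⟩ := BMod.bar_ret h M
    exact PF.retr H ih

/-- a bimodule is perfect when the diagonal and `A ⊗ M` are -/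
theorem PF_of_tR (hA : PF A (BMod.diag A)) (M : BMod A A)
    (hM : PF A (BMod.tR M.b.r M.r_one)) : PF A M :=
  PF.qi (X := BMod.bar (BMod.diag A) M)
    { toHom := augL M.b.l
      isHom := augL_isHom M.b } (qi_augL M.b.l M.one_l) (PF_bar' hA M hM)

end NC
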